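import Pool.Agent.Zk72.NF.FDefs
import Pool.Agent.H342R3.Lim.Curve

/-!
# Near-critical family: the Hausdorff distance of the traces
-/

set_option autoImplicit false

namespace Pool.Agent.Zk72.NF

open H974 H984N

theorem t_HB : S_HB := by
  intro R δ F F'
  rw [H342L.cdist_eq]
  refine le_ciInf fun φ => ?_
  rw [Pool.Agent.Zk60.NW.dist_trace]
  unfold Pool.Agent.Zk60.NW.hd
  refine Metric.hausdorffDist_le_of_mem_dist dist_nonneg ?_ ?_
  · rintro x ⟨t, rfl⟩
    refine ⟨R.curve δ F' (φ t), ⟨_, rfl⟩, ?_⟩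
    exact ContinuousMap.dist_apply_le_dist (f := R.curve δ F)
      (g := H342L.rep (R.curve δ F') φ) t
  · rintro x ⟨t, rfl⟩
    refine ⟨R.curve δ F (φ.symm t), ⟨_, rfl⟩, ?_⟩
    have h := ContinuousMap.dist_apply_le_dist (f := R.curve δ F)
      (g := H342L.rep (R.curve δ F') φ) (φ.symm t)
    have e : H342L.rep (R.curve δ F') φ (φ.symm t) = R.curve δ F' t := by
      show R.curve δ F' (φ (φ.symm t)) = _
      rw [OrderIso.apply_symm_apply]
    rw [e, dist_comm] at h
    exact h

end Pool.Agent.Zk72.NF
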