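import Pool.Agent.Zk72.NF.Coup

/-!
# Near-critical family: the bound for two densities, as a sum
-/

set_option autoImplicit false

namespace Pool.Agent.Zk72.NF

open H974 Finset H342P H984P H984N H12S H389NS Pool.Agent.Zk36.TT Pool.Agent.W92.DP
open Pool.Agent.Zk72.NS

theorem ind0_nonneg {S : Finset Edg} {x : ℝ} (h0 : 0 ≤ x) (h1 : x ≤ 1) (F : Finset Edg) :
    0 ≤ ind0 S (fun _ => x) F :=
  mul_nonneg (Finset.prod_nonneg fun _ _ => h0)
    (Finset.prod_nonneg fun _ _ => by linarith)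

theorem adv_sum {R : Rect} {δ ε θ ρ : ℝ} (h0 : 0 ≤ ε) (h1 : ε ≤ 1) (g0 : 0 ≤ θ) (g1 : θ ≤ 1) :
    ∑ T ∈ (R.dm δ).edges.powerset, ∑ U ∈ (R.dm δ).edges.powerset,
      ∑ B ∈ (R.dm δ).edges.powerset,
        ind0 (R.dm δ).edges (fun _ => θ) T * (ind0 (R.dm δ).edges (fun _ => ε) U *
          (ind0 (R.dm δ).edges (fun _ => 1/2) B *
          ind (∃ F ⊆ (R.dm δ).edges, ∃ F' ⊆ (R.dm δ).edges, F \ U = B \ U ∧
            F' \ (U ∩ T) = F \ (U ∩ T) ∧
            ρ < H342L.cdist (R.curve δ F) (R.curve δ F')))) ≤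
    Q2 ε θ (R.dm δ).edges (Apart R δ ρ) := by
  unfold Q2 Q P Pr Ex
  refine Finset.sum_le_sum fun T hT => ?_
  simp only [← Finset.mul_sum]
  refine mul_le_mul_of_nonneg_left ?_ (ind0_nonneg g0 g1 T)
  refine Finset.sum_le_sum fun U hU => ?_
  refine mul_le_mul_of_nonneg_left ?_ (ind0_nonneg h0 h1 U)
  refine Finset.sum_le_sum fun B hB => ?_
  refine mul_le_mul_of_nonneg_left ?_ (ind0_nonneg (by norm_num) (by norm_num) B)
  refine ind_mono ?_
  rintro ⟨F, hF, F', hF', e1, e2, h⟩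
  refine ⟨F, F', ?_, ?_, h⟩
  · rw [Btw_iff]
    intro x hx
    have := Finset.ext_iff.1 e1 x
    simp only [Finset.mem_sdiff] at this
    tauto
  · rw [Btw_iff]
    intro x hx
    have := Finset.ext_iff.1 e2 x
    simp only [Finset.mem_sdiff] at this
    tauto

end Pool.Agent.Zk72.NF
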