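import Pool.Agent.Zk36.NF.TL
import Pool.Agent.Zk72.NF.HB
import Pool.Agent.Zk72.NF.Adv1

/-!
# Near-critical family: its members far from criticality are near the arcs
-/

set_option autoImplicit false

namespace Pool.Agent.Zk72.NF

open H974 Finset H342P H984P H984N H342L Filter Topology MeasureTheory TopologicalSpace
open Pool.Agent.Zk36.CO Pool.Agent.Zk36.NF
open Pool.Agent.Zk60.NW (trace)

/-- The set of the points of a path. -/
noncomputable def tr (γ : C(unitInterval, ℂ)) : NonemptyCompacts ℂ :=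
  ⟨⟨Set.range γ, isCompact_range γ.continuous⟩, Set.range_nonempty _⟩

theorem dist_tr (γ γ' : C(unitInterval, ℂ)) : dist (tr γ) (tr γ') ≤ cdist γ γ' := by
  rw [H342L.cdist_eq]
  refine le_ciInf fun φ => ?_
  change Metric.hausdorffDist (Set.range γ) (Set.range γ') ≤ _
  refine Metric.hausdorffDist_le_of_mem_dist dist_nonneg ?_ ?_
  · rintro x ⟨t, rfl⟩
    refine ⟨γ' (φ t), ⟨_, rfl⟩, ?_⟩
    exact ContinuousMap.dist_apply_le_dist (f := γ) (g := H342L.rep γ' φ) t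
  · rintro x ⟨t, rfl⟩
    refine ⟨γ (φ.symm t), ⟨_, rfl⟩, ?_⟩
    have h := ContinuousMap.dist_apply_le_dist (f := γ) (g := H342L.rep γ' φ) (φ.symm t)
    have e : H342L.rep γ' φ (φ.symm t) = γ' t := by
      show γ' (φ (φ.symm t)) = _
      rw [OrderIso.apply_symm_apply]
    rw [e, dist_comm] at h
    exact h

theorem ind0_cond {S : Finset Edg} {q : ℝ} {e : Edg} {F : Finset Edg} (he : e ∈ S)
    (heF : e ∉ F) : ind0 S (fun _ => q) (insert e F) =
      q * (ind0 S (fun _ => q) (insert e F) + ind0 S (fun _ => q) F) := by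
  have e1 : S \ F = insert e (S \ insert e F) := by
    ext x
    simp only [Finset.mem_sdiff, Finset.mem_insert]
    constructor
    · rintro ⟨a, b⟩
      by_cases hx : x = e
      · exact Or.inl hx
      · exact Or.inr ⟨a, fun h => h.elim hx b⟩
    · rintro (rfl | ⟨a, b⟩)
      · exact ⟨he, heF⟩
      · exact ⟨a, fun h => b (Or.inr h)⟩
  have e2 : ind0 S (fun _ => q) F =
      (1 - q) * ((∏ e ∈ F, q) * ∏ e ∈ S \ insert e F, (1 - q)) := by
    unfold ind0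
    rw [e1, Finset.prod_insert (by simp)]
    ring
  have e3 : ind0 S (fun _ => q) (insert e F) =
      q * ((∏ e ∈ F, q) * ∏ e ∈ S \ insert e F, (1 - q)) := by
    unfold ind0
    rw [Finset.prod_insert heF]
    ring
  rw [e2, e3]
  ring

theorem tl_up (R : Rect) : ∃ C c : ℝ, 0 < C ∧ 0 < c ∧ ∀ δ : ℕ → ℝ, (∀ n, 0 < δ n) →
    Tendsto δ atTop (𝓝 0) → ∀ lam : ℝ, 0 ≤ lam → ∀ P : ProbabilityMeasure (NonemptyCompacts ℂ),
    (∀ f : BoundedContinuousFunction (NonemptyCompacts ℂ) ℝ,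
      Tendsto (fun n => tmean R (δ n) lam f) atTop
        (𝓝 (∫ x, f x ∂(P : Measure (NonemptyCompacts ℂ))))) →
    ∀ ρ : ℝ, 0 < ρ → ρ ≤ 1 →
      (P : Measure (NonemptyCompacts ℂ)).real {x | ρ < dist x (tr (arcR R))} ≤
        C / ρ ^ 2 * Real.exp (-(c * (ρ * lam ^ (4/3 : ℝ)))) := by
  obtain ⟨C, c, δ₀, hC, hc, hδ₀, h⟩ := up R
  refine ⟨4 * C, c / 2, by positivity, by positivity, ?_⟩
  intro δ hδ hδ0 lam hl P hP ρ hρ hρ1
  refine (real_le P _ hρ).trans ?_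
  refine le_of_tendsto (hP (tst (tr (arcR R)) ρ)) ?_
  have h1 : ∀ᶠ n in atTop, δ n ≤ δ₀ := (hδ0.eventually_lt_const hδ₀).mono fun n h => h.le
  have h2 : ∀ᶠ n in atTop, lam * δ n ^ (3/4 : ℝ) ≤ 1/2 :=
    ((small hδ hδ0 lam).eventually_lt_const (by norm_num : (0:ℝ) < 1/2)).mono fun n h => h.le
  filter_upwards [h1, h2] with n h1n h2n
  have h0n : 0 ≤ lam * δ n ^ (3/4 : ℝ) := mul_nonneg hl (by
    have := hδ n
    positivity)
  have h3 := h (δ n) (hδ n) h1n (lam * δ n ^ (3/4 : ℝ)) h0n h2n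
    (ind0 (R.dm (δ n)).edges (fun _ => 1/2 + lam * δ n ^ (3/4 : ℝ)))
    (fun F _ => ind0_nonneg (by linarith) (by linarith) F) (ind0_total _ _)
    (fun e he F _ heF => (ind0_cond he heF).symm.le) (ρ / 2) (by linarith) (by linarith)
  rw [exp_id (hδ n) hl] at h3
  refine le_trans ?_ (h3.trans (le_of_eq ?_))
  · unfold tmean
    refine Finset.sum_le_sum fun F hF => mul_le_mul_of_nonneg_left ?_
      (ind0_nonneg (by linarith) (by linarith) F)
    refine (tst_le _ hρ _).trans (ind_mono fun h => h.trans_le ?_)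
    exact dist_tr (R.curve (δ n) F) (arcR R)
  · rw [show c * (ρ / 2 * lam ^ (4/3 : ℝ)) = c / 2 * (ρ * lam ^ (4/3 : ℝ)) by ring]
    congr 1
    field_simp
    ring

theorem tl_down (R : Rect) : ∃ C c : ℝ, 0 < C ∧ 0 < c ∧ ∀ δ : ℕ → ℝ, (∀ n, 0 < δ n) →
    Tendsto δ atTop (𝓝 0) → ∀ lam : ℝ, 0 ≤ lam → ∀ P : ProbabilityMeasure (NonemptyCompacts ℂ),
    (∀ f : BoundedContinuousFunction (NonemptyCompacts ℂ) ℝ,
      Tendsto (fun n => tmean R (δ n) (-lam) f) atTop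
        (𝓝 (∫ x, f x ∂(P : Measure (NonemptyCompacts ℂ))))) →
    ∀ ρ : ℝ, 0 < ρ → ρ ≤ 1 →
      (P : Measure (NonemptyCompacts ℂ)).real {x | ρ < dist x (tr (arcL R))} ≤
        C / ρ ^ 2 * Real.exp (-(c * (ρ * lam ^ (4/3 : ℝ)))) := by
  obtain ⟨C, c, δ₀, hC, hc, hδ₀, h⟩ := down R
  refine ⟨4 * C, c / 2, by positivity, by positivity, ?_⟩
  intro δ hδ hδ0 lam hl P hP ρ hρ hρ1
  refine (real_le P _ hρ).trans ?_
  refine le_of_tendsto (hP (tst (tr (arcL R)) ρ)) ?_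
  have h1 : ∀ᶠ n in atTop, δ n ≤ δ₀ := (hδ0.eventually_lt_const hδ₀).mono fun n h => h.le
  have h2 : ∀ᶠ n in atTop, lam * δ n ^ (3/4 : ℝ) ≤ 1/2 :=
    ((small hδ hδ0 lam).eventually_lt_const (by norm_num : (0:ℝ) < 1/2)).mono fun n h => h.le
  filter_upwards [h1, h2] with n h1n h2n
  have h0n : 0 ≤ lam * δ n ^ (3/4 : ℝ) := mul_nonneg hl (by
    have := hδ n
    positivity)
  have e0 : 1/2 + -lam * δ n ^ (3/4 : ℝ) = 1/2 - lam * δ n ^ (3/4 : ℝ) := by ring
  have h3 := h (δ n) (hδ n) h1n (lam * δ n ^ (3/4 : ℝ)) h0n h2n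
    (ind0 (R.dm (δ n)).edges (fun _ => 1/2 - lam * δ n ^ (3/4 : ℝ)))
    (fun F _ => ind0_nonneg (by linarith) (by linarith) F) (ind0_total _ _)
    (fun e he F _ heF => (ind0_cond he heF).le) (ρ / 2) (by linarith) (by linarith)
  rw [exp_id (hδ n) hl] at h3
  refine le_trans ?_ (h3.trans (le_of_eq ?_))
  · unfold tmean
    rw [e0]
    refine Finset.sum_le_sum fun F hF => mul_le_mul_of_nonneg_left ?_
      (ind0_nonneg (by linarith) (by linarith) F)
    refine (tst_le _ hρ _).trans (ind_mono fun h => h.trans_le ?_)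
    exact dist_tr (R.curve (δ n) F) (arcL R)
  · rw [show c * (ρ / 2 * lam ^ (4/3 : ℝ)) = c / 2 * (ρ * lam ^ (4/3 : ℝ)) by ring]
    congr 1
    field_simp
    ring

end Pool.Agent.Zk72.NF
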