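import Pool.Agent.Zk72.NS.Adv
import Pool.Agent.Zk72.NS.QA

/-!
Near-critical family of the exploration path: statement of the coupling.
-/

set_option autoImplicit false

namespace Pool.Agent.Zk72.NF

open H974 Finset
open Pool.Agent.Zk72.NS

/-- Probability of an event of `(V, U, B)`: `U` with density `ε`, `B` uniform, `V = U ∩ T`, `T` with
density `θ`, independent. -/
noncomputable def Q2 (ε θ : ℝ) (S : Finset Edg)
    (A : Finset Edg → Finset Edg → Finset Edg → Prop) : ℝ :=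
  Ex (fun _ => θ) S (fun T => Q ε S (fun U B => A (U ∩ T) U B))

/-- Independent edges: `e` is in the random set with probability `p e`. -/
noncomputable def ind0 (S : Finset Edg) (p : Edg → ℝ) (F : Finset Edg) : ℝ :=
  (∏ e ∈ F, p e) * ∏ e ∈ S \ F, (1 - p e)

/-- CP2: coupling of two product laws. -/
def S_CP2 : Prop := ∀ (S : Finset Edg) (ε θ : ℝ) (p p' : Edg → ℝ), 0 < ε → ε ≤ 1 → 0 < θ →
  θ ≤ 1/2 → (∀ e ∈ S, |p e - 1/2| ≤ ε / 4 ∧ |p' e - 1/2| ≤ ε / 4 ∧ |p e - p' e| ≤ ε * θ / 2) →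
  ∃ c : Finset Edg → Finset Edg → ℝ, (∀ F F', 0 ≤ c F F') ∧
    (∀ F ⊆ S, ∑ F' ∈ S.powerset, c F F' = ind0 S p F) ∧
    (∀ F' ⊆ S, ∑ F ∈ S.powerset, c F F' = ind0 S p' F') ∧
    ∀ A : Finset Edg → Finset Edg → Prop,
      ∑ F ∈ S.powerset, ∑ F' ∈ S.powerset, c F F' * ind (A F F') ≤
        Q2 ε θ S (fun V U B => ∃ F F', Btw U B F ∧ Btw V F F' ∧ A F F')

end Pool.Agent.Zk72.NF
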