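import Mathlib

/-!
Near-critical family of the exploration path: statement of the compactness part.
-/

set_option autoImplicit false

namespace Pool.Agent.Zk72.NF

open MeasureTheory Filter Topology

/-- SUB: families of laws on a compact metric space, indexed by `ℕ × ℝ`, with a modulus of
continuity in the real parameter: a subsequence converges for all values of the parameter. -/
def S_SUB : Prop := ∀ (X : Type) [MetricSpace X] [CompactSpace X] [MeasurableSpace X]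
  [BorelSpace X] (μ : ℕ → ℝ → ProbabilityMeasure X) (w : ℝ → ℝ → ℝ),
  (∀ L : ℝ, 0 < L → Tendsto (w L) (𝓝[≥] 0) (𝓝 0)) →
  (∀ L : ℝ, 0 < L → ∃ n0 : ℕ, ∀ n, n0 ≤ n → ∀ a b : ℝ, |a| ≤ L → |b| ≤ L →
    ∀ f : X → ℝ, LipschitzWith 1 f → (∀ x, |f x| ≤ 1) →
      |(∫ x, f x ∂(μ n a : Measure X)) - ∫ x, f x ∂(μ n b : Measure X)| ≤ w L |a - b|) →
  ∃ φ : ℕ → ℕ, StrictMono φ ∧ ∃ ν : ℝ → ProbabilityMeasure X,
    (∀ a : ℝ, Tendsto (fun n => μ (φ n) a) atTop (𝓝 (ν a))) ∧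
    ∀ L : ℝ, 0 < L → ∀ a b : ℝ, |a| ≤ L → |b| ≤ L →
      ∀ f : X → ℝ, LipschitzWith 1 f → (∀ x, |f x| ≤ 1) →
        |(∫ x, f x ∂(ν a : Measure X)) - ∫ x, f x ∂(ν b : Measure X)| ≤ w L |a - b|

end Pool.Agent.Zk72.NF
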