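import Pool.Agent.Zk60.NW.Fin
import Pool.Agent.Zk72.NF.CPDefs
import Pool.Agent.Zk72.NF.SUBDefs
import Pool.Agent.H342R3.Lim.Defs

/-!
Near-critical family of the exploration path: statements of the last parts.
-/

set_option autoImplicit false

namespace Pool.Agent.Zk72.NF

open H974 H984N Finset MeasureTheory TopologicalSpace Filter Topology
open Pool.Agent.Zk60.NW (trace)

/-- HB: Hausdorff distance of the traces. -/
def S_HB : Prop := ∀ (R : Rect) (δ : ℝ) (F F' : Finset Edg),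
  dist (trace R δ F) (trace R δ F') ≤ H342L.cdist (R.curve δ F) (R.curve δ F')

/-- BALL: the traces are in a ball. -/
def S_BALL : Prop := ∀ R : Rect, ∃ M δ0 : ℝ, 0 < δ0 ∧ ∀ δ : ℝ, 0 < δ → δ ≤ δ0 →
  ∀ F ⊆ (R.dm δ).edges,
    ((trace R δ F : NonemptyCompacts ℂ) : Set ℂ) ⊆ Metric.closedBall (0 : ℂ) M

/-- Mean of a function of the trace at `p = 1/2 + a δ ^ (3/4)`. -/
noncomputable def tmean (R : Rect) (δ a : ℝ) (f : NonemptyCompacts ℂ → ℝ) : ℝ :=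
  ∑ F ∈ (R.dm δ).edges.powerset,
    ind0 (R.dm δ).edges (fun _ => 1/2 + a * δ ^ (3/4 : ℝ)) F * f (trace R δ F)

/-- Uniform continuity in the parameter. -/
def Unif (R : Rect) : Prop := ∀ L : ℝ, 0 < L → ∃ C δ0 : ℝ, 0 < C ∧ 0 < δ0 ∧
  ∀ δ : ℝ, 0 < δ → δ ≤ δ0 → ∀ a b : ℝ, |a| ≤ L → |b| ≤ L →
    ∀ f : NonemptyCompacts ℂ → ℝ, LipschitzWith 1 f → (∀ x, |f x| ≤ 1) →
      |tmean R δ a f - tmean R δ b f| ≤ C * Real.sqrt |a - b|

/-- LIM: limits along a subsequence for all values of the parameter. -/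
def S_LIM : Prop := S_SUB → S_BALL → ∀ R : Rect, Unif R → ∀ δ : ℕ → ℝ, (∀ n, 0 < δ n) →
  Tendsto δ atTop (𝓝 0) → ∃ φ : ℕ → ℕ, StrictMono φ ∧
    ∃ ν : ℝ → ProbabilityMeasure (NonemptyCompacts ℂ),
      (∀ (a : ℝ) (f : BoundedContinuousFunction (NonemptyCompacts ℂ) ℝ),
        Tendsto (fun n => tmean R (δ (φ n)) a f) atTop
          (𝓝 (∫ x, f x ∂(ν a : Measure (NonemptyCompacts ℂ))))) ∧
      ∀ L : ℝ, 0 < L → ∃ C : ℝ, ∀ a b : ℝ, |a| ≤ L → |b| ≤ L →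
        ∀ f : NonemptyCompacts ℂ → ℝ, LipschitzWith 1 f → (∀ x, |f x| ≤ 1) →
          |(∫ x, f x ∂(ν a : Measure (NonemptyCompacts ℂ))) -
            ∫ x, f x ∂(ν b : Measure (NonemptyCompacts ℂ))| ≤ C * Real.sqrt |a - b|

end Pool.Agent.Zk72.NF
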