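import Pool.Agent.Zk72.NF.Fam
import Pool.Agent.Zk72.NF.FDefs

/-!
# Near-critical family: the coupling of two parameters
-/

set_option autoImplicit false

namespace Pool.Agent.Zk72.NF

open H974 Finset H342P H984P H984N H12S H389NS Pool.Agent.Zk36.TT Pool.Agent.W92.DP
open Pool.Agent.Zk72.NS MeasureTheory TopologicalSpace
open Pool.Agent.Zk60.NW (trace)

theorem ind0_total (S : Finset Edg) (p : Edg → ℝ) : ∑ F ∈ S.powerset, ind0 S p F = 1 := by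
  have h2 := Ex_const (p := p) S 1
  unfold Ex at h2
  simp only [mul_one] at h2
  exact h2

theorem coup (hCP : S_CP2) (R : Rect) (Λ : ℝ) (hΛ : 0 < Λ) :
    ∃ C δ0 : ℝ, 0 < C ∧ 0 < δ0 ∧ δ0 < 1 ∧ ∀ δ : ℝ, 0 < δ → δ ≤ δ0 → (R.dm δ).Ok ∧
      ∀ (p p' : Edg → ℝ) (η : ℝ), 0 < η →
      (∀ e ∈ (R.dm δ).edges, |p e - 1/2| ≤ Λ * δ ^ (3/4 : ℝ) ∧ |p' e - 1/2| ≤ Λ * δ ^ (3/4 : ℝ) ∧
        |p e - p' e| ≤ η) →
      ∃ c : Finset Edg → Finset Edg → ℝ, (∀ F F', 0 ≤ c F F') ∧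
        (∀ F ⊆ (R.dm δ).edges, ∑ F' ∈ (R.dm δ).edges.powerset, c F F' =
          ind0 (R.dm δ).edges p F) ∧
        (∀ F' ⊆ (R.dm δ).edges, ∑ F ∈ (R.dm δ).edges.powerset, c F F' =
          ind0 (R.dm δ).edges p' F') ∧
        ∀ ρ : ℝ, 0 < ρ → ∑ F ∈ (R.dm δ).edges.powerset, ∑ F' ∈ (R.dm δ).edges.powerset,
          c F F' * ind (ρ < H342L.cdist (R.curve δ F) (R.curve δ F')) ≤
            C * (η * δ ^ (-(3/4) : ℝ)) / ρ := by
  obtain ⟨C0, δ1, hC0, hδ1, hδ11, hfam⟩ := fam R (8 * Λ) (by positivity)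
  refine ⟨2 * C0, min δ1 ((1 / (8 * Λ)) ^ (4/3 : ℝ)), by positivity,
    lt_min hδ1 (by positivity), lt_of_le_of_lt (min_le_left _ _) hδ11, ?_⟩
  intro δ hδ hδle
  obtain ⟨hOk, hQ⟩ := hfam δ hδ (hδle.trans (min_le_left _ _))
  refine ⟨hOk, ?_⟩
  intro p p' η hη hp
  have hd34 : 0 < δ ^ (3/4 : ℝ) := by positivity
  have hdd : δ ^ (3/4 : ℝ) * δ ^ (-(3/4) : ℝ) = 1 := by
    rw [← Real.rpow_add hδ]
    norm_num
  have hd34' : δ ^ (3/4 : ℝ) ≤ 1 / (8 * Λ) := by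
    have h1 : δ ^ (3/4 : ℝ) ≤ ((1 / (8 * Λ)) ^ (4/3 : ℝ)) ^ (3/4 : ℝ) :=
      Real.rpow_le_rpow hδ.le (hδle.trans (min_le_right _ _)) (by norm_num)
    rw [← Real.rpow_mul (by positivity)] at h1
    norm_num at h1
    norm_num
    exact h1
  obtain ⟨ε, hε⟩ : ∃ ε : ℝ, ε = 8 * Λ * δ ^ (3/4 : ℝ) := ⟨_, rfl⟩
  have hε0 : 0 < ε := by rw [hε]; positivity
  have hε1 : ε ≤ 1 := by
    rw [hε]
    rw [le_div_iff₀ (by positivity)] at hd34'
    linarith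
  obtain ⟨η', hη'⟩ : ∃ η' : ℝ, η' = min η (2 * Λ * δ ^ (3/4 : ℝ)) := ⟨_, rfl⟩
  have hη'0 : 0 < η' := by rw [hη']; exact lt_min hη (by positivity)
  have hη'1 : η' ≤ η := by rw [hη']; exact min_le_left _ _
  have hη'2 : η' ≤ 2 * Λ * δ ^ (3/4 : ℝ) := by rw [hη']; exact min_le_right _ _
  obtain ⟨θ, hθ⟩ : ∃ θ : ℝ, θ = 2 * η' / ε := ⟨_, rfl⟩
  have hθ0 : 0 < θ := by rw [hθ]; positivity
  have hθ1 : θ ≤ 1/2 := by
    rw [hθ, div_le_iff₀ hε0, hε]
    linarith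
  have hεθ : ε * θ / 2 = η' := by
    rw [hθ]
    field_simp
  obtain ⟨c, hc0, hc1, hc2, hc3⟩ := hCP (R.dm δ).edges ε θ p p' hε0 hε1 hθ0 hθ1 (by
    intro e he
    obtain ⟨a1, a2, a3⟩ := hp e he
    have a4 : Λ * δ ^ (3/4 : ℝ) ≤ ε / 4 := by
      rw [hε]
      have : 0 < Λ * δ ^ (3/4 : ℝ) := by positivity
      linarith
    refine ⟨a1.trans a4, a2.trans a4, ?_⟩
    rw [hεθ, hη']
    refine le_min a3 ?_
    have a5 : |p e - p' e| ≤ |p e - 1/2| + |p' e - 1/2| := by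
      have : p e - p' e = (p e - 1/2) - (p' e - 1/2) := by ring
      rw [this]
      exact abs_sub _ _
    linarith)
  refine ⟨c, hc0, hc1, hc2, ?_⟩
  intro ρ hρ
  refine (hc3 (fun F F' => ρ < H342L.cdist (R.curve δ F) (R.curve δ F'))).trans ?_
  have h1 := hQ ε θ hε0.le hε1 hθ0.le (by linarith) (by
    rw [hε, mul_assoc, hdd, mul_one]) ρ hρ
  refine h1.trans ?_
  apply div_le_div_of_nonneg_right _ hρ.le
  have h2 : θ * (ε * δ ^ (-(3/4) : ℝ)) = 2 * (η' * δ ^ (-(3/4) : ℝ)) := by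
    rw [← hεθ]
    ring
  rw [h2]
  have h3 : 0 < δ ^ (-(3/4) : ℝ) := by positivity
  have h4 : η' * δ ^ (-(3/4) : ℝ) ≤ η * δ ^ (-(3/4) : ℝ) :=
    mul_le_mul_of_nonneg_right hη'1 h3.le
  nlinarith

theorem unif (hCP : S_CP2) (hHB : S_HB) (R : Rect) : Unif R := by
  intro L hL
  obtain ⟨C, δ0, hC, hδ0, -, h⟩ := coup hCP R L hL
  refine ⟨1 + 2 * C, δ0, by positivity, hδ0, ?_⟩
  intro δ hδ hδle a b ha hb f hf hf1
  rcases eq_or_ne a b with hab | hab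
  · rw [hab, sub_self, abs_zero]
    positivity
  have hx : 0 < |a - b| := abs_pos.2 (sub_ne_zero.2 hab)
  have hd34 : 0 < δ ^ (3/4 : ℝ) := by positivity
  have hdd : δ ^ (3/4 : ℝ) * δ ^ (-(3/4) : ℝ) = 1 := by
    rw [← Real.rpow_add hδ]
    norm_num
  obtain ⟨-, h2⟩ := h δ hδ hδle
  obtain ⟨c, hc0, hc1, hc2, hc3⟩ := h2 (fun _ => 1/2 + a * δ ^ (3/4 : ℝ))
    (fun _ => 1/2 + b * δ ^ (3/4 : ℝ)) (|a - b| * δ ^ (3/4 : ℝ)) (by positivity) (by
      intro e _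
      refine ⟨?_, ?_, ?_⟩
      · rw [show 1/2 + a * δ ^ (3/4 : ℝ) - 1/2 = a * δ ^ (3/4 : ℝ) by ring, abs_mul,
          abs_of_pos hd34]
        exact mul_le_mul_of_nonneg_right ha hd34.le
      · rw [show 1/2 + b * δ ^ (3/4 : ℝ) - 1/2 = b * δ ^ (3/4 : ℝ) by ring, abs_mul,
          abs_of_pos hd34]
        exact mul_le_mul_of_nonneg_right hb hd34.le
      · rw [show 1/2 + a * δ ^ (3/4 : ℝ) - (1/2 + b * δ ^ (3/4 : ℝ)) =
          (a - b) * δ ^ (3/4 : ℝ) by ring, abs_mul, abs_of_pos hd34])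
  obtain ⟨r, hr⟩ : ∃ r : ℝ, r = Real.sqrt |a - b| := ⟨_, rfl⟩
  have hr0 : 0 < r := by rw [hr]; exact Real.sqrt_pos.2 hx
  have hrr : |a - b| = r * r := by rw [hr]; exact (Real.mul_self_sqrt hx.le).symm
  have g := hc3 r hr0
  rw [mul_assoc (|a - b|), hdd, mul_one] at g
  have ea : tmean R δ a f = ∑ F ∈ (R.dm δ).edges.powerset, ∑ F' ∈ (R.dm δ).edges.powerset,
      c F F' * f (trace R δ F) := by
    unfold tmean
    refine Finset.sum_congr rfl fun F hF => ?_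
    rw [← hc1 F (Finset.mem_powerset.1 hF), Finset.sum_mul]
  have eb : tmean R δ b f = ∑ F ∈ (R.dm δ).edges.powerset, ∑ F' ∈ (R.dm δ).edges.powerset,
      c F F' * f (trace R δ F') := by
    unfold tmean
    rw [Finset.sum_comm]
    refine Finset.sum_congr rfl fun F' hF' => ?_
    rw [← hc2 F' (Finset.mem_powerset.1 hF'), Finset.sum_mul]
  have e1 : ∑ F ∈ (R.dm δ).edges.powerset, ∑ F' ∈ (R.dm δ).edges.powerset, c F F' = 1 := by
    rw [← ind0_total (R.dm δ).edges (fun _ => 1/2 + a * δ ^ (3/4 : ℝ))]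
    exact Finset.sum_congr rfl fun F hF => hc1 F (Finset.mem_powerset.1 hF)
  have e2 : |tmean R δ a f - tmean R δ b f| ≤
      ∑ F ∈ (R.dm δ).edges.powerset, ∑ F' ∈ (R.dm δ).edges.powerset,
        c F F' * (r + 2 * ind (r < H342L.cdist (R.curve δ F) (R.curve δ F'))) := by
    rw [ea, eb, ← Finset.sum_sub_distrib]
    refine (Finset.abs_sum_le_sum_abs _ _).trans (Finset.sum_le_sum fun F _ => ?_)
    rw [← Finset.sum_sub_distrib]
    refine (Finset.abs_sum_le_sum_abs _ _).trans (Finset.sum_le_sum fun F' _ => ?_)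
    rw [← mul_sub, abs_mul, abs_of_nonneg (hc0 F F')]
    apply mul_le_mul_of_nonneg_left _ (hc0 F F')
    by_cases hlt : r < H342L.cdist (R.curve δ F) (R.curve δ F')
    · rw [ind_of hlt]
      have b1 := hf1 (trace R δ F)
      have b2 := hf1 (trace R δ F')
      have b3 := abs_sub (f (trace R δ F)) (f (trace R δ F'))
      linarith
    · rw [ind_not_of hlt, mul_zero, add_zero]
      push Not at hlt
      have b1 := hf.dist_le_mul (trace R δ F) (trace R δ F')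
      rw [Real.dist_eq] at b1
      have b2 := hHB R δ F F'
      simp only [NNReal.coe_one, one_mul] at b1
      linarith
  refine e2.trans ?_
  have e3 : ∑ F ∈ (R.dm δ).edges.powerset, ∑ F' ∈ (R.dm δ).edges.powerset,
        c F F' * (r + 2 * ind (r < H342L.cdist (R.curve δ F) (R.curve δ F'))) =
      r * 1 + 2 * ∑ F ∈ (R.dm δ).edges.powerset, ∑ F' ∈ (R.dm δ).edges.powerset,
        c F F' * ind (r < H342L.cdist (R.curve δ F) (R.curve δ F')) := by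
    rw [← e1, Finset.mul_sum, Finset.mul_sum, ← Finset.sum_add_distrib]
    refine Finset.sum_congr rfl fun F _ => ?_
    rw [Finset.mul_sum, Finset.mul_sum, ← Finset.sum_add_distrib]
    refine Finset.sum_congr rfl fun F' _ => ?_
    ring
  rw [e3]
  have e4 : C * |a - b| / r = C * r := by
    rw [hrr]
    field_simp
  rw [e4] at g
  rw [← hr]
  linarith

end Pool.Agent.Zk72.NF
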