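import Pool.Agent.Zk72.NF.Par

/-!
# Near-critical family: the arm bounds in a window of arbitrary size
-/

set_option autoImplicit false

namespace Pool.Agent.Zk72.NF

open H974 Finset H342P H984P H984N H12S H389NS Pool.Agent.Zk36.TT Pool.Agent.W92.DP
open Pool.Agent.Zk72.NS

/-- the scale at which the window is left -/
theorem cutk {c0 c ε : ℝ} (hc0 : 0 < c0) (hc : c0 ≤ c) (h0 : 0 ≤ ε) {d k : ℕ} (hd : 1 ≤ d)
    (hdk : d ≤ k) (hk : ε * (k:ℝ) ^ (3/4 : ℝ) ≤ c) :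
    ∃ k' : ℕ, d ≤ k' ∧ k' ≤ k ∧ (k:ℝ) ≤ 2 * (c / c0) ^ (4/3 : ℝ) * k' ∧
      (ε * (k':ℝ) ^ (3/4 : ℝ) ≤ c0 ∨ k' = d) := by
  have hcp : 0 < c := lt_of_lt_of_le hc0 hc
  have hG : 1 ≤ (c / c0) ^ (4/3 : ℝ) :=
    Real.one_le_rpow (by rw [le_div_iff₀ hc0, one_mul]; exact hc) (by norm_num)
  have hk0 : (0:ℝ) ≤ k := Nat.cast_nonneg k
  by_cases h : ε * (k:ℝ) ^ (3/4 : ℝ) ≤ c0
  · refine ⟨k, hdk, le_rfl, ?_, Or.inl h⟩
    nlinarith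
  · push Not at h
    have hε : 0 < ε := by
      rcases eq_or_lt_of_le h0 with he | he
      · rw [← he, zero_mul] at h
        linarith
      · exact he
    obtain ⟨x, hx⟩ : ∃ x : ℝ, x = (c0 / ε) ^ (4/3 : ℝ) := ⟨_, rfl⟩
    have hx0 : 0 < x := by rw [hx]; positivity
    have hx34 : x ^ (3/4 : ℝ) = c0 / ε := by
      rw [hx, ← Real.rpow_mul (by positivity)]
      norm_num
    have hkx : (k:ℝ) ≤ (c / c0) ^ (4/3 : ℝ) * x := by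
      have h1 : (k:ℝ) ^ (3/4 : ℝ) ≤ c / ε := by
        rw [le_div_iff₀ hε]
        linarith
      have h2 : ((k:ℝ) ^ (3/4 : ℝ)) ^ (4/3 : ℝ) ≤ (c / ε) ^ (4/3 : ℝ) :=
        Real.rpow_le_rpow (by positivity) h1 (by norm_num)
      rw [← Real.rpow_mul hk0] at h2
      norm_num at h2
      rw [hx, ← Real.mul_rpow (by positivity) (by positivity)]
      refine h2.trans (le_of_eq ?_)
      congr 1
      field_simp
    have hxk : x < k := by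
      by_contra hcon
      push Not at hcon
      have h1 : (k:ℝ) ^ (3/4 : ℝ) ≤ x ^ (3/4 : ℝ) := Real.rpow_le_rpow hk0 hcon (by norm_num)
      rw [hx34, le_div_iff₀ hε] at h1
      linarith
    rcases le_or_gt (d:ℝ) x with hdx | hdx
    · have h1 : d ≤ ⌊x⌋₊ := Nat.le_floor hdx
      have h2 : (⌊x⌋₊ : ℝ) ≤ x := Nat.floor_le hx0.le
      have h3 : x < ⌊x⌋₊ + 1 := Nat.lt_floor_add_one x
      have h4 : (1:ℝ) ≤ (⌊x⌋₊ : ℝ) := by exact_mod_cast (hd.trans h1)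
      refine ⟨⌊x⌋₊, h1, ?_, ?_, Or.inl ?_⟩
      · exact_mod_cast (h2.trans hxk.le)
      · have h5 : x ≤ 2 * (⌊x⌋₊ : ℝ) := by linarith
        nlinarith
      · have h5 : (⌊x⌋₊ : ℝ) ^ (3/4 : ℝ) ≤ c0 / ε := by
          rw [← hx34]
          exact Real.rpow_le_rpow (by positivity) h2 (by norm_num)
        rw [le_div_iff₀ hε] at h5
        linarith
    · refine ⟨d, le_rfl, hdk, ?_, Or.inr rfl⟩
      have : (0:ℝ) ≤ (c / c0) ^ (4/3 : ℝ) := by linarith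
      nlinarith

theorem pow_cut {G a : ℝ} (hG : 0 < G) (ha : 0 ≤ a) {d k k' : ℕ} (hd : 1 ≤ d) (hk' : d ≤ k')
    (hk : k' ≤ k) (h : (k:ℝ) ≤ G * k') : ((d:ℝ) / k') ^ a ≤ G ^ a * ((d:ℝ) / k) ^ a := by
  have h1 : (0:ℝ) < d := by exact_mod_cast hd
  have h2 : (0:ℝ) < k' := by exact_mod_cast (hd.trans hk')
  have h3 : (0:ℝ) < k := by exact_mod_cast ((hd.trans hk').trans hk)
  rw [← Real.mul_rpow hG.le (by positivity)]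
  apply Real.rpow_le_rpow (by positivity) _ ha
  rw [mul_div_assoc', div_le_div_iff₀ h2 h3]
  nlinarith

theorem t_A4c (c : ℝ) : A4c c := by
  obtain ⟨C, c0, hC, hc0, h⟩ := a4u
  obtain ⟨c1, hc1⟩ : ∃ c1 : ℝ, c1 = max c c0 := ⟨_, rfl⟩
  have h1 : c0 ≤ c1 := hc1 ▸ le_max_right _ _
  have h2 : c ≤ c1 := hc1 ▸ le_max_left _ _
  have hG : 1 ≤ (c1 / c0) ^ (4/3 : ℝ) :=
    Real.one_le_rpow (by rw [le_div_iff₀ hc0, one_mul]; exact h1) (by norm_num)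
  have hG2 : (1:ℝ) ≤ 2 * (c1 / c0) ^ (4/3 : ℝ) := by linarith
  have hG3 : 1 ≤ (2 * (c1 / c0) ^ (4/3 : ℝ)) ^ (5/4 : ℝ) := Real.one_le_rpow hG2 (by norm_num)
  refine ⟨C * (2 * (c1 / c0) ^ (4/3 : ℝ)) ^ (5/4 : ℝ), by nlinarith, ?_⟩
  intro ε b v d k S hε0 hε1 hd hdk hk hS
  obtain ⟨k', a1, a2, a3, a4⟩ := cutk hc0 h1 hε0 hd hdk (hk.trans h2)
  have m1 : Q ε S (Sw (F4 b v d k)) ≤ Q ε S (Sw (F4 b v d k')) :=
    Q_mono hε0 hε1 fun U B hU hB hs => Sw_mono hU hB (fun F _ hF =>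
      Pool.Agent.Zk47.NS.t_MON v d d k' k _ le_rfl a1 a2 hF) hs
  have m2 : Q ε S (Sw (F4 b v d k')) ≤ C * ((d : ℝ) / k') ^ (5 / 4 : ℝ) := by
    rcases a4 with a4 | a4
    · exact h ε b v d k' S hε0 hε1 hd a1 a4 ((blk_mono (by omega)).trans hS)
    · refine (Q_le_one hε0 hε1 _ _).trans ?_
      have hd0 : (d:ℝ) ≠ 0 := by
        have : 0 < d := hd
        positivity
      rw [a4, div_self hd0, Real.one_rpow, mul_one]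
      exact hC
  have m3 := pow_cut (a := 5/4) (by linarith : (0:ℝ) < 2 * (c1 / c0) ^ (4/3 : ℝ)) (by norm_num)
    hd a1 a2 a3
  calc Q ε S (Sw (F4 b v d k)) ≤ C * ((d : ℝ) / k') ^ (5 / 4 : ℝ) := m1.trans m2
    _ ≤ C * ((2 * (c1 / c0) ^ (4/3 : ℝ)) ^ (5/4 : ℝ) * ((d:ℝ) / k) ^ (5/4 : ℝ)) :=
        mul_le_mul_of_nonneg_left m3 (by linarith)
    _ = _ := by ring

theorem Cx_cut {v : Vtx} {d k k' : ℕ} {G : Set Edg} (h1 : d ≤ k') (h2 : k' ≤ k)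
    (h : Cx v d k G) : Cx v d k' G := by
  obtain ⟨u, hu, w, hw, hr⟩ := h
  rw [Pool.Agent.Zk47.NS.mem_bdB_sd] at hu hw
  obtain ⟨u', hu', w', hw', hr', -, -⟩ := Pool.Agent.Zk47.NS.t_EXI v d k'
    (G ∩ ↑(blk v k \ blk v d)) u w h1 (by omega) (by rw [hw]; exact_mod_cast h2) hr
  refine ⟨u', hu', w', hw', hr'.mono ?_⟩
  intro x hx
  exact ⟨hx.1.1, hx.2⟩

theorem t_A2c (c : ℝ) : A2c c := by
  obtain ⟨C, c0, hC, hc0, h⟩ := a2u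
  obtain ⟨c1, hc1⟩ : ∃ c1 : ℝ, c1 = max c c0 := ⟨_, rfl⟩
  have h1 : c0 ≤ c1 := hc1 ▸ le_max_right _ _
  have h2 : c ≤ c1 := hc1 ▸ le_max_left _ _
  have hG : 1 ≤ (c1 / c0) ^ (4/3 : ℝ) :=
    Real.one_le_rpow (by rw [le_div_iff₀ hc0, one_mul]; exact h1) (by norm_num)
  have hG2 : (1:ℝ) ≤ 2 * (c1 / c0) ^ (4/3 : ℝ) := by linarith
  have hG3 : 1 ≤ (2 * (c1 / c0) ^ (4/3 : ℝ)) ^ (1/4 : ℝ) := Real.one_le_rpow hG2 (by norm_num)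
  refine ⟨C * (2 * (c1 / c0) ^ (4/3 : ℝ)) ^ (1/4 : ℝ), by nlinarith, ?_⟩
  intro ε v d k S hε0 hε1 hd hdk hk hS
  obtain ⟨k', a1, a2, a3, a4⟩ := cutk hc0 h1 hε0 hd hdk (hk.trans h2)
  have m1 : Q ε S (Sw (F2 v d k)) ≤ Q ε S (Sw (F2 v d k')) :=
    Q_mono hε0 hε1 fun U B hU hB hs => Sw_mono hU hB (fun F _ hF =>
      ⟨Cx_cut a1 a2 hF.1, Cx_cut a1 a2 hF.2⟩) hs
  have m2 : Q ε S (Sw (F2 v d k')) ≤ C * ((d : ℝ) / k') ^ (1 / 4 : ℝ) := by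
    rcases a4 with a4 | a4
    · exact h ε v d k' S hε0 hε1 hd a1 a4 ((blk_mono (by omega)).trans hS)
    · refine (Q_le_one hε0 hε1 _ _).trans ?_
      have hd0 : (d:ℝ) ≠ 0 := by
        have : 0 < d := hd
        positivity
      rw [a4, div_self hd0, Real.one_rpow, mul_one]
      exact hC
  have m3 := pow_cut (a := 1/4) (by linarith : (0:ℝ) < 2 * (c1 / c0) ^ (4/3 : ℝ)) (by norm_num)
    hd a1 a2 a3
  calc Q ε S (Sw (F2 v d k)) ≤ C * ((d : ℝ) / k') ^ (1 / 4 : ℝ) := m1.trans m2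
    _ ≤ C * ((2 * (c1 / c0) ^ (4/3 : ℝ)) ^ (1/4 : ℝ) * ((d:ℝ) / k) ^ (1/4 : ℝ)) :=
        mul_le_mul_of_nonneg_left m3 (by linarith)
    _ = _ := by ring

theorem Side_cut {a b c d : ℤ} {v : Vtx} {k R R' : ℕ} (h : R' ≤ R)
    (hs : Pool.Agent.Zk72.NS.Side a b c d v k R) :
    Pool.Agent.Zk72.NS.Side a b c d v k R' := by
  unfold Pool.Agent.Zk72.NS.Side at hs ⊢
  omega

theorem t_A1c (c : ℝ) : A1c c := by
  obtain ⟨C, c0, hC, hc0, h⟩ := a1u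
  obtain ⟨c1, hc1⟩ : ∃ c1 : ℝ, c1 = max c c0 := ⟨_, rfl⟩
  have h1 : c0 ≤ c1 := hc1 ▸ le_max_right _ _
  have h2 : c ≤ c1 := hc1 ▸ le_max_left _ _
  have hG : 1 ≤ (c1 / c0) ^ (4/3 : ℝ) :=
    Real.one_le_rpow (by rw [le_div_iff₀ hc0, one_mul]; exact h1) (by norm_num)
  have hG2 : (1:ℝ) ≤ 2 * (c1 / c0) ^ (4/3 : ℝ) := by linarith
  have hG3 : 1 ≤ (2 * (c1 / c0) ^ (4/3 : ℝ)) ^ (1/3 : ℝ) := Real.one_le_rpow hG2 (by norm_num)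
  refine ⟨C * (2 * (c1 / c0) ^ (4/3 : ℝ)) ^ (1/3 : ℝ), by nlinarith, ?_⟩
  intro ε a₁ a₂ b₁ b₂ v k R hε0 hε1 hd hdk hk hv hS
  obtain ⟨k', a1, a2, a3, a4⟩ := cutk hc0 h1 hε0 hd hdk (hk.trans h2)
  have m3 := pow_cut (a := 1/3) (by linarith : (0:ℝ) < 2 * (c1 / c0) ^ (4/3 : ℝ)) (by norm_num)
    hd a1 a2 a3
  have m4 : C * ((k : ℝ) / k') ^ (1 / 3 : ℝ) ≤
      C * (2 * (c1 / c0) ^ (4/3 : ℝ)) ^ (1/3 : ℝ) * ((k:ℝ) / R) ^ (1/3 : ℝ) := by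
    rw [mul_assoc]
    exact mul_le_mul_of_nonneg_left m3 (by linarith)
  have m5 : k' = k → (1:ℝ) ≤ C * ((k : ℝ) / k') ^ (1 / 3 : ℝ) := by
    intro a4
    have hd0 : (k:ℝ) ≠ 0 := by
      have : 0 < k := hd
      positivity
    rw [a4, div_self hd0, Real.one_rpow, mul_one]
    exact hC
  have far : ∀ y : Vtx, (y.1 ≤ v.1 - R ∨ v.1 + R ≤ y.1 ∨ y.2 ≤ v.2 - R ∨ v.2 + R ≤ y.2) →
      (y.1 ≤ v.1 - k' ∨ v.1 + k' ≤ y.1 ∨ y.2 ≤ v.2 - k' ∨ v.2 + k' ≤ y.2) := by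
    intro y hy
    omega
  constructor
  · refine le_trans ?_ m4
    refine (Q_mono hε0 hε1 (A' := Sw (fun F => Crs v.1 v.2 k k' (↑F : Set Edg)))
      fun U B hU hB hs => Sw_mono hU hB (fun F _ hF => ?_) hs).trans ?_
    · obtain ⟨x, y, hx, hy, hr⟩ := hF
      exact ⟨x, y, hx, far y hy, hr⟩
    · rcases a4 with a4 | a4
      · exact (h ε a₁ a₂ b₁ b₂ v k k' hε0 hε1 hd a1 a4 hv (Side_cut a2 hS)).1
      · exact (Q_le_one hε0 hε1 _ _).trans (m5 a4)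
  · refine le_trans ?_ m4
    refine (Q_mono hε0 hε1 (A' := Sw (fun F => DCrs v.1 v.2 k k'
      (↑(RE a₁ a₂ b₁ b₂ \ F) : Set Edg)))
      fun U B hU hB hs => Sw_mono hU hB (fun F _ hF => ?_) hs).trans ?_
    · obtain ⟨x, y, hx, hy, hr⟩ := hF
      exact ⟨x, y, hx, far y hy, hr⟩
    · rcases a4 with a4 | a4
      · exact (h ε a₁ a₂ b₁ b₂ v k k' hε0 hε1 hd a1 a4 hv (Side_cut a2 hS)).2
      · exact (Q_le_one hε0 hε1 _ _).trans (m5 a4)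

end Pool.Agent.Zk72.NF
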