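import Pool.Agent.Zk72.NF.Ext
import Pool.Agent.Zk72.NF.CPDefs

/-!
# Near-critical family: the bound for two densities
-/

set_option autoImplicit false

namespace Pool.Agent.Zk72.NF

open H974 Finset H342P H984P H984N H12S H389NS Pool.Agent.Zk36.TT Pool.Agent.W92.DP
open Pool.Agent.Zk72.NS

theorem Ex_mem {θ : ℝ} {S : Finset Edg} {e : Edg} (he : e ∈ S) :
    Ex (fun _ => θ) S (fun T => ind (e ∈ T)) = θ := by
  have h1 := Q_mem (ε := θ) he
  unfold Q P Pr at h1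
  simp only [Ex_const] at h1
  exact h1

theorem Q2_e {ε θ : ℝ} {S : Finset Edg} {e : Edg} (he : e ∈ S)
    (A : Finset Edg → Finset Edg → Prop) :
    Q2 ε θ S (fun V U B => e ∈ V ∧ A U B) = θ * Q ε S (fun U B => e ∈ U ∧ A U B) := by
  have h1 : ∀ T : Finset Edg, Q ε S (fun U B => e ∈ U ∩ T ∧ A U B) =
      ind (e ∈ T) * Q ε S (fun U B => e ∈ U ∧ A U B) := by
    intro T
    by_cases hT : e ∈ T
    · rw [ind_of hT, one_mul]
      refine Q_congr fun U B _ _ => ?_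
      rw [Finset.mem_inter]
      exact ⟨fun h => ⟨h.1.1, h.2⟩, fun h => ⟨⟨h.1, hT⟩, h.2⟩⟩
    · rw [ind_not_of hT, zero_mul]
      refine Q_false fun U B _ _ h => ?_
      exact hT (Finset.mem_inter.1 h.1).2
  unfold Q2
  simp only [h1]
  rw [Ex_mul_right, Ex_mem he]

theorem Q2_mono {ε θ : ℝ} (h0 : 0 ≤ ε) (h1 : ε ≤ 1) (g0 : 0 ≤ θ) (g1 : θ ≤ 1) {S : Finset Edg}
    {A A' : Finset Edg → Finset Edg → Finset Edg → Prop}
    (h : ∀ V U B, V ⊆ U → U ⊆ S → B ⊆ S → A V U B → A' V U B) : Q2 ε θ S A ≤ Q2 ε θ S A' :=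
  Ex_mono (ok_eps g0 g1) fun _ _ => Q_mono h0 h1 fun _ _ hU hB =>
    h _ _ _ Finset.inter_subset_left hU hB

theorem Q2_le_one {ε θ : ℝ} (h0 : 0 ≤ ε) (h1 : ε ≤ 1) (g0 : 0 ≤ θ) (g1 : θ ≤ 1) (S : Finset Edg)
    (A : Finset Edg → Finset Edg → Finset Edg → Prop) : Q2 ε θ S A ≤ 1 :=
  Ex_le_of_le (ok_eps g0 g1) fun _ _ => Q_le_one h0 h1 _ _

theorem Q2_false {ε θ : ℝ} {S : Finset Edg} {A : Finset Edg → Finset Edg → Finset Edg → Prop}
    (h : ∀ V U B, V ⊆ U → U ⊆ S → B ⊆ S → ¬ A V U B) : Q2 ε θ S A = 0 := by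
  have h1 : ∀ T : Finset Edg, Q ε S (fun U B => A (U ∩ T) U B) = 0 := fun T =>
    Q_false fun U B hU hB => h _ _ _ Finset.inter_subset_left hU hB
  unfold Q2
  simp only [h1]
  exact Ex_const _ _ _

theorem Q2_ex_le {ε θ : ℝ} (h0 : 0 ≤ ε) (h1 : ε ≤ 1) (g0 : 0 ≤ θ) (g1 : θ ≤ 1) (S : Finset Edg)
    (A : Edg → Finset Edg → Finset Edg → Finset Edg → Prop) :
    Q2 ε θ S (fun V U B => ∃ e ∈ S, A e V U B) ≤ ∑ e ∈ S, Q2 ε θ S (A e) := by
  unfold Q2
  rw [← Ex_sum]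
  exact Ex_mono (ok_eps g0 g1) fun T _ => Q_ex_le h0 h1 S S (fun e U B => A e (U ∩ T) U B)

theorem Btw_trans {U V B F G : Finset Edg} (hV : V ⊆ U) (h1 : Btw U B F) (h2 : Btw V F G) :
    Btw U B G := by
  rw [Btw_iff] at *
  intro x hx
  rw [h2 x (fun h => hx (hV h)), h1 x hx]

/-- The two paths of two modifications, which differ on `V` only, are far away from each other. -/
def Apart (R : Rect) (δ ρ : ℝ) (V U B : Finset Edg) : Prop :=
  ∃ F F', Btw U B F ∧ Btw V F F' ∧ ρ < H342L.cdist (R.curve δ F) (R.curve δ F')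

/-- **The bound for two densities.** -/
theorem fam (R : Rect) (Λ : ℝ) (hΛ : 0 < Λ) :
    ∃ C δ0 : ℝ, 0 < C ∧ 0 < δ0 ∧ δ0 < 1 ∧ ∀ δ : ℝ, 0 < δ → δ ≤ δ0 → (R.dm δ).Ok ∧
      ∀ ε θ : ℝ, 0 ≤ ε → ε ≤ 1 → 0 ≤ θ → θ ≤ 1 → ε * δ ^ (-(3/4) : ℝ) ≤ Λ →
      ∀ ρ : ℝ, 0 < ρ →
      Q2 ε θ (R.dm δ).edges (Apart R δ ρ) ≤ C * (θ * (ε * δ ^ (-(3/4) : ℝ))) / ρ := by
  obtain ⟨κ, S, δ0, hκ, hS, hδ0, hδ01, hsh⟩ := R.shape
  obtain ⟨c, hcdef⟩ : ∃ c : ℝ, c = (2 * S) ^ (3/4 : ℝ) * Λ := ⟨_, rfl⟩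
  obtain ⟨C1, hC1, hall⟩ := sum_sc (t_A4c c) (t_A2c c) (t_A1c c) hκ
  obtain ⟨C2, hC2, hexm⟩ := sum_mc (κ := κ) (t_A2c c)
  obtain ⟨K0, hK0, hclo'⟩ := clo
  obtain ⟨K, hK, hKpos, hclo⟩ : ∃ K : ℝ, 4 ≤ K ∧ 0 < K ∧ ∀ (R : Rect) (δ : ℝ)
      (U B F : Finset Edg) (s : ℕ), 0 ≤ δ → (R.dm δ).Ok → U ⊆ (R.dm δ).edges →
      B ⊆ (R.dm δ).edges → Btw U B F → 2 ≤ s → Small (R.dm δ) U B s →
      H342L.cdist (R.curve δ B) (R.curve δ F) ≤ K * (δ * s) := by
    refine ⟨max K0 4, le_max_right _ _, lt_of_lt_of_le (by norm_num) (le_max_right K0 4), ?_⟩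
    intro R δ U B F s a1 a2 a3 a4 a5 a6 a7
    refine (hclo' R δ U B F s a1 a2 a3 a4 a5 a6 a7).trans ?_
    exact mul_le_mul_of_nonneg_right (le_max_left _ _) (by positivity)
  have hS74 : 0 < S ^ (7/4 : ℝ) := by positivity
  refine ⟨2 * K * (C1 + C2) * S ^ (7/4 : ℝ), min δ0 (min S (1/2)), by positivity,
    lt_min hδ0 (lt_min hS (by norm_num)), ?_, ?_⟩
  · refine lt_of_le_of_lt ((min_le_right _ _).trans (min_le_right _ _)) ?_
    norm_num
  intro δ hδ hδle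
  have hshape := hsh δ hδ (hδle.trans (min_le_left _ _))
  have hδS : δ ≤ S := hδle.trans ((min_le_right _ _).trans (min_le_left _ _))
  have hD := hshape.ok
  refine ⟨hD, ?_⟩
  intro ε θ h0 h1' g0 g1' hwin ρ hρ
  set n := S / δ with hn
  have hn1 : 1 ≤ n := by
    rw [hn, le_div_iff₀ hδ, one_mul]
    exact hδS
  have hn0 : 0 < n := by linarith
  obtain ⟨N, hNdef⟩ : ∃ N : ℕ, N = ⌈n⌉₊ := ⟨_, rfl⟩
  have hnN : n ≤ N := hNdef ▸ Nat.le_ceil n
  have hN2 : (N:ℝ) ≤ 2 * n := by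
    have := (Nat.ceil_lt_add_one hn0.le).le
    rw [hNdef]
    linarith
  have hNR : (1:ℝ) ≤ N := hn1.trans hnN
  have hN1 : 1 ≤ N := by exact_mod_cast hNR
  have hw1 : (R.dm δ).r - (R.dm δ).l ≤ N := by
    have := hshape.w_le.trans hnN
    exact_mod_cast this
  have hw2 : (R.dm δ).h ≤ N := by
    have := hshape.h_le.trans hnN
    exact_mod_cast this
  have hd34 : 0 < δ ^ (-(3/4) : ℝ) := by positivity
  set X := ε * δ ^ (-(3/4) : ℝ) with hX
  have hX0 : 0 ≤ X := by positivity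
  have hsm : ε * (N:ℝ) ^ (3/4 : ℝ) ≤ c := by
    have g2 : (N:ℝ) ^ (3/4 : ℝ) ≤ (2 * S) ^ (3/4 : ℝ) * δ ^ (-(3/4) : ℝ) := by
      have a1 : (N:ℝ) ≤ (2 * S) / δ := by
        refine hN2.trans (le_of_eq ?_)
        rw [hn]
        ring
      refine (Real.rpow_le_rpow (by positivity) a1 (by norm_num)).trans (le_of_eq ?_)
      rw [Real.div_rpow (by positivity) hδ.le, div_eq_mul_inv, ← Real.rpow_neg hδ.le]
    calc ε * (N:ℝ) ^ (3/4 : ℝ) ≤ ε * ((2 * S) ^ (3/4 : ℝ) * δ ^ (-(3/4) : ℝ)) :=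
          mul_le_mul_of_nonneg_left g2 h0
      _ = (2 * S) ^ (3/4 : ℝ) * X := by rw [hX]; ring
      _ ≤ (2 * S) ^ (3/4 : ℝ) * Λ := mul_le_mul_of_nonneg_left hwin (by positivity)
      _ = c := hcdef.symm
  have hRHS : 0 ≤ 2 * K * (C1 + C2) * S ^ (7/4 : ℝ) * (θ * X) / ρ := by positivity
  have g5 : n ^ (7/4 : ℝ) * δ = S ^ (7/4 : ℝ) * δ ^ (-(3/4) : ℝ) := by
    rw [hn, Real.div_rpow hS.le hδ.le, div_eq_mul_inv, ← Real.rpow_neg hδ.le]
    have : δ ^ (-(3/4) : ℝ) = δ ^ (-(7/4 : ℝ)) * δ := by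
      nth_rewrite 3 [← Real.rpow_one δ]
      rw [← Real.rpow_add hδ]
      norm_num
    rw [this]
    ring
  rcases le_or_gt (4 * (δ * N)) ρ with hbigρ | hρ8
  · rw [Q2_false]
    · exact hRHS
    · rintro V U B hVU hU hB ⟨F, F', hF, hF', hlt⟩
      have hFS := Btw_sub hU hB hF
      have hFS' := Btw_sub (hVU.trans hU) hFS hF'
      have a1 := le_worst (R := R) hδ.le hD hFS hFS' (Btw_eq hF')
      have a2 := worst_triv (R := R) hδ.le hD hN1 hw1 hw2 (U := V) hFS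
      linarith
  set A := ρ / (K * δ) with hA
  have hKδ : 0 < K * δ := by positivity
  obtain ⟨s, hs⟩ : ∃ s : ℕ, s = ⌊A⌋₊ := ⟨_, rfl⟩
  have hA0 : 0 < A := by positivity
  have hsA : (s:ℝ) ≤ A := hs ▸ Nat.floor_le hA0.le
  have hAs : A < s + 1 := hs ▸ Nat.lt_floor_add_one A
  have hAρ : A * (K * δ) = ρ := by
    rw [hA]
    field_simp
  rcases Nat.lt_or_ge s 2 with h2s | h2s
  · -- very small distance
    have hA2 : A < 2 := by
      have : (s:ℝ) ≤ 1 := by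
        have : s ≤ 1 := by omega
        exact_mod_cast this
      linarith
    have g1 : Q2 ε θ (R.dm δ).edges (Apart R δ ρ) ≤
        θ * ∑ e ∈ (R.dm δ).edges,
          Q ε (R.dm δ).edges (fun U B => e ∈ U ∧ Sw (fun F => Exm (R.dm δ) F e) U B) := by
      refine (Q2_mono (A' := fun V U B => ∃ e ∈ (R.dm δ).edges,
        (e ∈ V ∧ Sw (fun F => Exm (R.dm δ) F e) U B)) h0 h1' g0 g1'
        fun V U B hVU hU hB h => ?_).trans ?_
      · obtain ⟨F, F', hF, hF', hlt⟩ := h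
        have hFS := Btw_sub hU hB hF
        have hVS := hVU.trans hU
        have hFS' := Btw_sub hVS hFS hF'
        by_contra hcon
        push Not at hcon
        have a0 := le_worst (R := R) hδ.le hD hFS hFS' (Btw_eq hF')
        have a1 := worst_le (R := R) hδ.le hD hw1 hw2 hVS hFS
        have a2 : ∑ e ∈ V, ind (e ∉ (R.dm δ).wir) *
            (δ * (5 * ind (Sw (fun F => Exm (R.dm δ) F e) V F) +
            4 * ∑ r ∈ Icc 1 N, ind (Sw (fun F => Exc (R.dm δ) F e r) V F))) = 0 := by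
          apply Finset.sum_eq_zero
          intro e he
          have b1 : ¬ Sw (fun F => Exm (R.dm δ) F e) V F := by
            rintro ⟨G, hG, hE⟩
            exact hcon e (hVS he) he ⟨G, Btw_trans hVU hF hG, hE⟩
          have b2 : ∀ r ∈ Icc 1 N, ind (Sw (fun F => Exc (R.dm δ) F e r) V F) = 0 := by
            intro r _
            apply ind_not_of
            rintro ⟨G, hG, hE⟩
            exact b1 ⟨G, hG, Exc_Exm hE⟩
          rw [Finset.sum_eq_zero b2, ind_not_of b1]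
          ring
        linarith
      · refine (Q2_ex_le h0 h1' g0 g1' (R.dm δ).edges
          (fun e V U B => e ∈ V ∧ Sw (fun F => Exm (R.dm δ) F e) U B)).trans (le_of_eq ?_)
        rw [Finset.mul_sum]
        exact Finset.sum_congr rfl fun e he => Q2_e he _
    have g2 := hexm (R.dm δ) n hshape hn1 ε N h0 h1' hsm hnN
    refine (g1.trans (mul_le_mul_of_nonneg_left g2 g0)).trans ?_
    rw [le_div_iff₀ hρ]
    have g3 : ρ ≤ 2 * K * δ := by
      rw [← hAρ]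
      nlinarith
    have g4 : C2 * (ε * n ^ (7/4 : ℝ)) * ρ ≤ C2 * (ε * n ^ (7/4 : ℝ)) * (2 * K * δ) :=
      mul_le_mul_of_nonneg_left g3 (by positivity)
    have g6 : C2 * (ε * n ^ (7/4 : ℝ)) * (2 * K * δ) = 2 * K * C2 * S ^ (7/4 : ℝ) * X := by
      have : C2 * (ε * n ^ (7/4 : ℝ)) * (2 * K * δ) =
          C2 * ε * (2 * K) * (n ^ (7/4 : ℝ) * δ) := by ring
      rw [this, g5, hX]
      ring
    have g7 : 0 ≤ 2 * K * C1 * S ^ (7/4 : ℝ) * X := by positivity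
    calc θ * (C2 * (ε * n ^ (7/4 : ℝ))) * ρ = θ * (C2 * (ε * n ^ (7/4 : ℝ)) * ρ) := by ring
      _ ≤ θ * (2 * K * (C1 + C2) * S ^ (7/4 : ℝ) * X) := by
          apply mul_le_mul_of_nonneg_left _ g0
          nlinarith
      _ = _ := by ring
  · have hs1 : (2:ℝ) ≤ s := by exact_mod_cast h2s
    have hs0 : (0:ℝ) < s := by linarith
    have hsN : s ≤ N := by
      by_contra hcon
      push Not at hcon
      have a1 : (N:ℝ) ≤ s := by exact_mod_cast hcon.le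
      have a2 : (N:ℝ) * (K * δ) ≤ ρ := by
        rw [← hAρ]
        exact mul_le_mul_of_nonneg_right (a1.trans hsA) hKδ.le
      have a3 : 4 * (δ * N) ≤ (N:ℝ) * (K * δ) := by
        have : 0 ≤ δ * N := by positivity
        nlinarith
      linarith
    have g1 : Q2 ε θ (R.dm δ).edges (Apart R δ ρ) ≤
        θ * ∑ e ∈ (R.dm δ).edges, ind (e ∉ (R.dm δ).wir) *
          Q ε (R.dm δ).edges (fun U B => e ∈ U ∧ Sw (fun F => Exc (R.dm δ) F e s) U B) := by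
      refine (Q2_mono (A' := fun V U B => ∃ e ∈ (R.dm δ).edges,
        (e ∈ V ∧ (e ∉ (R.dm δ).wir ∧ Sw (fun F => Exc (R.dm δ) F e s) U B))) h0 h1' g0 g1'
        fun V U B hVU hU hB h => ?_).trans ?_
      · obtain ⟨F, F', hF, hF', hlt⟩ := h
        have hFS := Btw_sub hU hB hF
        have hVS := hVU.trans hU
        by_contra hcon
        push Not at hcon
        have hsmall : Small (R.dm δ) V F s := by
          intro G hG e he hw hE
          exact hcon e (hVS he) he hw ⟨G, Btw_trans hVU hF hG, hE⟩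
        have a1 := hclo R δ V F F' s hδ.le hD hVS hFS hF' h2s hsmall
        have a2 : K * (δ * s) ≤ ρ := by
          have a3 : (s:ℝ) * (K * δ) ≤ A * (K * δ) := mul_le_mul_of_nonneg_right hsA hKδ.le
          rw [hAρ] at a3
          refine le_trans (le_of_eq ?_) a3
          ring
        linarith
      · refine (Q2_ex_le h0 h1' g0 g1' (R.dm δ).edges
          (fun e V U B => e ∈ V ∧ (e ∉ (R.dm δ).wir ∧
            Sw (fun F => Exc (R.dm δ) F e s) U B))).trans (le_of_eq ?_)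
        rw [Finset.mul_sum]
        refine Finset.sum_congr rfl fun e he => ?_
        rw [Q2_e he (fun U B => e ∉ (R.dm δ).wir ∧ Sw (fun F => Exc (R.dm δ) F e s) U B)]
        congr 1
        by_cases hw : e ∈ (R.dm δ).wir
        · rw [ind_not_of (by rw [not_not]; exact hw), zero_mul]
          exact Q_false fun U B _ _ h => h.2.1 hw
        · rw [ind_of hw, one_mul]
          exact Q_congr fun U B _ _ => ⟨fun h => ⟨h.1, h.2.2⟩, fun h => ⟨h.1, hw, h.2⟩⟩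
    have h1s : 1 ≤ s := by omega
    have g2 := hall (R.dm δ) n hshape hn1 ε N s h0 h1' hsm hnN hN2 h1s hsN
    refine (g1.trans (mul_le_mul_of_nonneg_left g2 g0)).trans ?_
    rw [le_div_iff₀ hρ]
    have g3 : ρ / s ≤ 2 * K * δ := by
      rw [div_le_iff₀ hs0, ← hAρ]
      have : A ≤ 2 * s := by linarith
      have := mul_le_mul_of_nonneg_right this hKδ.le
      linarith
    have g4 : C1 * (ε * (n ^ (7/4 : ℝ) / s)) * ρ = C1 * (ε * n ^ (7/4 : ℝ)) * (ρ / s) := by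
      ring
    have g4' : C1 * (ε * n ^ (7/4 : ℝ)) * (ρ / s) ≤ C1 * (ε * n ^ (7/4 : ℝ)) * (2 * K * δ) :=
      mul_le_mul_of_nonneg_left g3 (by positivity)
    have g6 : C1 * (ε * n ^ (7/4 : ℝ)) * (2 * K * δ) = 2 * K * C1 * S ^ (7/4 : ℝ) * X := by
      have : C1 * (ε * n ^ (7/4 : ℝ)) * (2 * K * δ) =
          C1 * ε * (2 * K) * (n ^ (7/4 : ℝ) * δ) := by ring
      rw [this, g5, hX]
      ring
    have g7 : 0 ≤ 2 * K * C2 * S ^ (7/4 : ℝ) * X := by positivity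
    calc θ * (C1 * (ε * (n ^ (7/4 : ℝ) / s))) * ρ =
        θ * (C1 * (ε * (n ^ (7/4 : ℝ) / s)) * ρ) := by ring
      _ ≤ θ * (2 * K * (C1 + C2) * S ^ (7/4 : ℝ) * X) := by
          apply mul_le_mul_of_nonneg_left _ g0
          nlinarith
      _ = _ := by ring

end Pool.Agent.Zk72.NF
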