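import Pool.Agent.Zk72.NS.Shp3
import Pool.Agent.Zk72.NS.Main2

/-!
# Near-critical family: the bounds for the worst modification in a window of arbitrary size
-/

set_option autoImplicit false

namespace Pool.Agent.Zk72.NF

open H974 Finset H342P H984P H984N H12S H389NS Pool.Agent.Zk36.TT Pool.Agent.W92.DP
open Pool.Agent.Zk72.NS

/-- four arms, window `c` -/
def A4c (c : ℝ) : Prop := ∃ C : ℝ, 1 ≤ C ∧ ∀ (ε : ℝ) (b : Bool) (v : Vtx) (d k : ℕ)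
  (S : Finset Edg), 0 ≤ ε → ε ≤ 1 → 1 ≤ d → d ≤ k → ε * (k : ℝ) ^ (3 / 4 : ℝ) ≤ c →
  blk v (k + 1) ⊆ S → Q ε S (Sw (F4 b v d k)) ≤ C * ((d : ℝ) / k) ^ (5 / 4 : ℝ)

/-- two arms, window `c` -/
def A2c (c : ℝ) : Prop := ∃ C : ℝ, 1 ≤ C ∧ ∀ (ε : ℝ) (v : Vtx) (d k : ℕ)
  (S : Finset Edg), 0 ≤ ε → ε ≤ 1 → 1 ≤ d → d ≤ k → ε * (k : ℝ) ^ (3 / 4 : ℝ) ≤ c →
  blk v (k + 1) ⊆ S → Q ε S (Sw (F2 v d k)) ≤ C * ((d : ℝ) / k) ^ (1 / 4 : ℝ)

/-- one arm near a side, window `c` -/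
def A1c (c : ℝ) : Prop := ∃ C : ℝ, 1 ≤ C ∧ ∀ (ε : ℝ) (a₁ a₂ b₁ b₂ : ℤ) (v : Vtx) (k R : ℕ),
  0 ≤ ε → ε ≤ 1 → 1 ≤ k → k ≤ R → ε * (R : ℝ) ^ (3 / 4 : ℝ) ≤ c →
  inR a₁ a₂ b₁ b₂ v → Side a₁ a₂ b₁ b₂ v k R →
  Q ε (RE a₁ a₂ b₁ b₂) (Sw (fun F => Crs v.1 v.2 k R (↑F : Set Edg))) ≤
    C * ((k : ℝ) / R) ^ (1 / 3 : ℝ) ∧
  Q ε (RE a₁ a₂ b₁ b₂) (Sw (fun F => DCrs v.1 v.2 k R (↑(RE a₁ a₂ b₁ b₂ \ F) : Set Edg))) ≤
    C * ((k : ℝ) / R) ^ (1 / 3 : ℝ)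

theorem ArUc {c : ℝ} (h4 : A4c c) : ∃ C : ℝ, 1 ≤ C ∧ ∀ (ε : ℝ) (v : Vtx) (r : ℕ)
    (S : Finset Edg), 0 ≤ ε → ε ≤ 1 → 8 ≤ r → ε * (r : ℝ) ^ (3/4 : ℝ) ≤ c → blk v r ⊆ S →
    Q ε S (Sw (Ar v r)) ≤ C * (r : ℝ) ^ (-(5/4) : ℝ) := by
  obtain ⟨C, hC, h⟩ := h4
  have h8 : (1:ℝ) ≤ 8 ^ (5/4 : ℝ) := Real.one_le_rpow (by norm_num) (by norm_num)
  refine ⟨2 * C * 8 ^ (5/4 : ℝ), by nlinarith, ?_⟩
  intro ε v r S h0 h1 hr he hS
  have hr0 : (0:ℝ) < r := by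
    have : 0 < r := by omega
    exact_mod_cast this
  have hle : ∀ b, Q ε S (Sw (F4 b v 3 (r - 3))) ≤ C * (8 / (r:ℝ)) ^ (5/4 : ℝ) := by
    intro b
    have g1 := h ε b v 3 (r - 3) S h0 h1 (by norm_num) (by omega) (by
      refine le_trans ?_ he
      apply mul_le_mul_of_nonneg_left _ h0
      apply Real.rpow_le_rpow (by positivity) _ (by norm_num)
      exact_mod_cast Nat.sub_le _ _) ((blk_mono (by omega)).trans hS)
    refine g1.trans ?_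
    apply mul_le_mul_of_nonneg_left _ (by linarith)
    refine Real.rpow_le_rpow (by positivity) ?_ (by norm_num)
    rw [Nat.cast_sub (by omega)]
    have h8' : (8:ℝ) ≤ r := by exact_mod_cast hr
    push_cast
    rw [div_le_div_iff₀ (by linarith) hr0]
    linarith
  have g2 : Q ε S (Sw (Ar v r)) ≤ Q ε S (Sw (fun F => F4 true v 3 (r - 3) F ∨
      F4 false v 3 (r - 3) F)) :=
    Q_mono h0 h1 fun U B hU hB hs => Sw_mono hU hB (fun F _ hF => (Ar_iff v r F).1 hF) hs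
  have g3 := Q_Sw_or h0 h1 S (F4 true v 3 (r - 3)) (F4 false v 3 (r - 3))
  have g4 : (8 / (r:ℝ)) ^ (5/4 : ℝ) = 8 ^ (5/4 : ℝ) * (r : ℝ) ^ (-(5/4) : ℝ) := by
    rw [Real.div_rpow (by norm_num) hr0.le, Real.rpow_neg hr0.le]
    rfl
  rw [g4] at hle
  have g5 := hle true
  have g6 := hle false
  linarith

theorem e1Uc {c : ℝ} (h4 : A4c c) (h2 : A2c c) : ∃ C : ℝ, 1 ≤ C ∧ ∀ (D : Dm), D.Ok →
    ∀ (ε : ℝ) (e : Edg) (r N : ℕ), 0 ≤ ε → ε ≤ 1 → e ∈ D.edges → ε * (N : ℝ) ^ (3/4 : ℝ) ≤ c →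
    D.bd (src e) ≤ N → 1 ≤ r → (r : ℤ) ≤ D.bd (src e) →
    Q ε D.edges (fun U B => e ∈ U ∧ Sw (fun F => Exc D F e r) U B) ≤
      ε * (C * ((r : ℝ) ^ (-1 : ℝ) * ((D.bd (src e) : ℝ) + 1) ^ (-(1/4) : ℝ))) := by
  obtain ⟨C1, hC1, hA⟩ := ArUc h4
  obtain ⟨C2, hC2, hB⟩ := h2
  refine ⟨100 * (1 + C1) * (1 + C2), by nlinarith, ?_⟩
  intro D hD ε e r N h0 h1 he hN hbN hr hrb
  obtain ⟨d, hdd⟩ : ∃ d : ℕ, (d : ℤ) = D.bd (src e) := ⟨(D.bd (src e)).toNat, by omega⟩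
  rw [← hdd, Int.cast_natCast]
  have hdN : d ≤ N := by omega
  have hsm : ∀ m : ℕ, m ≤ N → ε * (m : ℝ) ^ (3/4 : ℝ) ≤ c := by
    intro m hm
    refine le_trans ?_ hN
    apply mul_le_mul_of_nonneg_left _ h0
    apply Real.rpow_le_rpow (by positivity) _ (by norm_num)
    exact_mod_cast hm
  have heA : ∀ m : ℕ, e ∉ T4 (src e) m := fun m h => T4_out h (src_blk e (by norm_num))
  have heB : ∀ k R : ℕ, 1 ≤ k → e ∉ T2 (src e) k R := fun k R hk h => T2_out h (src_blk e hk)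
  have hsB : ∀ k : ℕ, 4 ≤ d → T2 (src e) k (d - 1) ⊆ D.edges := fun k h4 =>
    (T2_sub _ _ _).trans (blk_edges (by omega))
  apply scale_le h0 (Q_e_le h0 h1 he _)
  intro hpos
  apply num1 hC1 hC2 hr (by omega)
  · rw [div_le_one hpos]
    exact Q_e_le h0 h1 he _
  · intro h8
    rw [div_le_iff₀ hpos]
    have g1 := hA ε (src e) r D.edges h0 h1 h8 (hsm r (by omega))
      (blk_edges hrb)
    have g2 : Q ε D.edges (fun U B => e ∈ U ∧ Sw (fun F => Exc D F e r) U B) ≤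
        Q ε D.edges (fun U B => e ∈ U ∧ Sw (Ar (src e) r) U B) :=
      Q_mono h0 h1 fun U B hU hB h => ⟨h.1, Sw_mono hU hB
        (fun F hF h => exc_arms hD hF h8 (by omega) h) h.2⟩
    rw [Q_e he ((T4_sub h8).trans (blk_edges hrb)) (heA r) (Ar_lc _ _)] at g2
    have g3 := mul_le_mul_of_nonneg_left g1 h0
    linarith
  · intro h4
    rw [div_le_iff₀ hpos]
    have g1 := hB ε (src e) 2 (d - 1) D.edges h0 h1 (by norm_num) (by omega)
      (hsm (d - 1) (by omega)) (blk_edges (by omega))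
    have g2 : Q ε D.edges (fun U B => e ∈ U ∧ Sw (fun F => Exc D F e r) U B) ≤
        Q ε D.edges (fun U B => e ∈ U ∧ Sw (F2 (src e) (1 + 1) (d - 1)) U B) :=
      Q_mono h0 h1 fun U B hU hB h => ⟨h.1, Sw_mono hU hB
        (fun F hF h => exm_F2 hD hF (by omega) le_rfl (by omega) (Exc_Exm h)) h.2⟩
    rw [Q_e he (hsB 1 h4) (heB 1 _ le_rfl) (F2_lc _ 1 _)] at g2
    have g3 := mul_le_mul_of_nonneg_left g1 h0
    norm_num at g2 g3
    linarith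
  · intro h8 h3
    rw [div_le_iff₀ hpos]
    have g1 := hA ε (src e) r D.edges h0 h1 h8 (hsm r (by omega))
      (blk_edges hrb)
    have g1' := hB ε (src e) (r + 1) (d - 1) D.edges h0 h1 (by omega) (by omega)
      (hsm (d - 1) (by omega)) (blk_edges (by omega))
    have g2 : Q ε D.edges (fun U B => e ∈ U ∧ Sw (fun F => Exc D F e r) U B) ≤
        Q ε D.edges (fun U B => e ∈ U ∧ (Sw (Ar (src e) r) U B ∧
          Sw (F2 (src e) (r + 1) (d - 1)) U B)) :=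
      Q_mono h0 h1 fun U B hU hB h => ⟨h.1, Sw_mono hU hB
        (fun F hF h => exc_arms hD hF h8 (by omega) h) h.2, Sw_mono hU hB
        (fun F hF h => exm_F2 hD hF (by omega) hr (by omega) (Exc_Exm h)) h.2⟩
    have hdj : Disjoint (T4 (src e) r) (T2 (src e) r (d - 1)) := by
      rw [Finset.disjoint_left]
      intro x hx hx'
      exact T2_out hx' (T4_sub h8 hx)
    have hTA : T4 (src e) r ⊆ D.edges := (T4_sub h8).trans (blk_edges hrb)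
    have hTB : T2 (src e) r (d - 1) ⊆ D.edges := hsB r (by omega)
    rw [Q_e (A := fun U B => Sw (Ar (src e) r) U B ∧ Sw (F2 (src e) (r + 1) (d - 1)) U B) he
      (Finset.union_subset hTA hTB) (by
        rw [Finset.mem_union]
        rintro (h | h)
        · exact heA _ h
        · exact heB _ _ hr h) (Lc_and (Ar_lc _ _) (F2_lc _ _ _)),
      Q_and hTA hTB hdj (Ar_lc _ _) (F2_lc _ _ _)] at g2
    have g3 := mul_le_mul g1 g1' (Q_nonneg h0 h1 _ _) (by positivity)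
    have g4 := mul_le_mul_of_nonneg_left g3 h0
    have g5 : ε * (Q ε D.edges (Sw (Ar (src e) r)) *
      Q ε D.edges (Sw (F2 (src e) (r + 1) (d - 1)))) ≤ _ := g4
    exact (g2.trans g5).trans (le_of_eq (mul_comm _ _))

/-- an edge is examined for some modification -/
theorem emUc {c : ℝ} (h2 : A2c c) : ∃ C : ℝ, 1 ≤ C ∧ ∀ (D : Dm), D.Ok →
    ∀ (ε : ℝ) (e : Edg) (N : ℕ), 0 ≤ ε → ε ≤ 1 → e ∈ D.edges → ε * (N : ℝ) ^ (3/4 : ℝ) ≤ c →
    D.bd (src e) ≤ N →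
    Q ε D.edges (fun U B => e ∈ U ∧ Sw (fun F => Exm D F e) U B) ≤
      ε * (C * ((D.bd (src e) : ℝ) + 1) ^ (-(1/4) : ℝ)) := by
  obtain ⟨C2, hC2, hB⟩ := h2
  refine ⟨100 * (1 + 1) * (1 + C2), by nlinarith, ?_⟩
  intro D hD ε e N h0 h1 he hN hbN
  obtain ⟨hb0, -⟩ := bd_sec (src_in he)
  obtain ⟨d, hdd⟩ : ∃ d : ℕ, (d : ℤ) = D.bd (src e) := ⟨(D.bd (src e)).toNat, by omega⟩
  rw [← hdd, Int.cast_natCast]
  have hdN : d ≤ N := by omega
  rcases Nat.lt_or_ge d 1 with hd1 | hd1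
  · have hd0 : d = 0 := by omega
    subst hd0
    have g1 := Q_e_le h0 h1 he (Sw (fun F => Exm D F e))
    have g2 : (((0:ℕ) : ℝ) + 1) ^ (-(1/4) : ℝ) = 1 := by
      rw [Nat.cast_zero, zero_add, Real.one_rpow]
    rw [g2]
    nlinarith
  have hone : ∀ x : ℝ, ((1 : ℕ) : ℝ) ^ (-1 : ℝ) * x = x := by
    intro x
    rw [Nat.cast_one, Real.one_rpow, one_mul]
  rw [← hone (((d:ℝ) + 1) ^ (-(1/4) : ℝ))]
  apply scale_le h0 (Q_e_le h0 h1 he _)
  intro hpos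
  apply num1 (C1 := 1) le_rfl hC2 le_rfl (by omega)
  · rw [div_le_one hpos]
    exact Q_e_le h0 h1 he _
  · intro h8
    omega
  · intro h4
    rw [div_le_iff₀ hpos]
    have g1 := hB ε (src e) 2 (d - 1) D.edges h0 h1 (by norm_num) (by omega)
      (le_trans (mul_le_mul_of_nonneg_left (Real.rpow_le_rpow (by positivity) (by
        exact_mod_cast (by omega : d - 1 ≤ N)) (by norm_num)) h0) hN) (blk_edges (by omega))
    have g2 : Q ε D.edges (fun U B => e ∈ U ∧ Sw (fun F => Exm D F e) U B) ≤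
        Q ε D.edges (fun U B => e ∈ U ∧ Sw (F2 (src e) (1 + 1) (d - 1)) U B) :=
      Q_mono h0 h1 fun U B hU hB h => ⟨h.1, Sw_mono hU hB
        (fun F hF h => exm_F2 hD hF (by omega) le_rfl (by omega) h) h.2⟩
    rw [Q_e he ((T2_sub _ _ _).trans (blk_edges (by omega)))
      (fun h => T2_out h (src_blk e le_rfl)) (F2_lc _ 1 _)] at g2
    have g3 := mul_le_mul_of_nonneg_left g1 h0
    norm_num at g2 g3
    linarith
  · intro h8
    omega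


theorem e2Uc {c : ℝ} (h4 : A4c c) (hS : A1c c) : ∃ C : ℝ, 1 ≤ C ∧ ∀ (D : Dm), D.Ok →
    ∀ (ε : ℝ) (e : Edg) (r N : ℕ), 0 ≤ ε → ε ≤ 1 → e ∈ D.edges → e ∉ D.wir →
    ε * (N : ℝ) ^ (3/4 : ℝ) ≤ c → sec D (src e) ≤ N → 1 ≤ r → D.bd (src e) ≤ r →
    Q ε D.edges (fun U B => e ∈ U ∧ Sw (fun F => Exc D F e r) U B) ≤
      ε * (C * (((D.bd (src e) : ℝ) + 1) ^ (-(11/12) : ℝ) *
          (((min (r : ℤ) (sec D (src e)) : ℤ) : ℝ) + 1) ^ (-(1/3) : ℝ))) := by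
  obtain ⟨C1, hC1, hA⟩ := ArUc h4
  obtain ⟨CS, hCS, hB⟩ := hS
  refine ⟨100000 * C1 * CS, by nlinarith, ?_⟩
  intro D hD ε e r N h0 h1 he hw hN hsN hr hbr
  have hv := src_in he
  obtain ⟨hb0, hbs⟩ := bd_sec hv
  obtain ⟨d, hdd⟩ : ∃ d : ℕ, (d : ℤ) = D.bd (src e) := ⟨(D.bd (src e)).toNat, by omega⟩
  obtain ⟨t, htt⟩ : ∃ t : ℕ, (t : ℤ) = sec D (src e) := ⟨(sec D (src e)).toNat, by omega⟩
  rw [← hdd, ← htt] at hbs
  rw [← hdd] at hbr
  rw [← htt] at hsN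
  have hmm : min (r : ℤ) (sec D (src e)) = ((min r t : ℕ) : ℤ) := by
    rw [← htt]
    push_cast
    rfl
  rw [← hdd, hmm, Int.cast_natCast, Int.cast_natCast]
  have hsm : ∀ m : ℕ, m ≤ N → ε * (m : ℝ) ^ (3/4 : ℝ) ≤ c := by
    intro m hm
    refine le_trans ?_ hN
    apply mul_le_mul_of_nonneg_left _ h0
    apply Real.rpow_le_rpow (by positivity) _ (by norm_num)
    exact_mod_cast hm
  have heA : ∀ m : ℕ, e ∉ T4 (src e) m := fun m h => T4_out h (src_blk e (by norm_num))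
  have heB : e ∉ D.edges \ blk (src e) (d + 3) := by
    rw [Finset.mem_sdiff, not_and, not_not]
    exact fun _ => src_blk e (by omega)
  -- the four arms
  have hAr : 8 ≤ d → Q ε D.edges (Sw (Ar (src e) d)) ≤
      4 * C1 * ((d:ℝ) + 1) ^ (-(5/4) : ℝ) := by
    intro h8
    have h1 := hA ε (src e) d D.edges h0 h1 h8 (hsm d (by omega))
      (blk_edges (by omega))
    have hdp : (0:ℝ) < d := by
      have : 0 < d := by omega
      exact_mod_cast this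
    have h2 : (d:ℝ) ^ (-(5/4) : ℝ) ≤ 2 ^ (2:ℝ) * ((d:ℝ) + 1) ^ (-(5/4) : ℝ) := by
      refine pw_le (5/4) (by norm_num) hdp (by positivity) (by norm_num) (by norm_num) ?_
      have : (8:ℝ) ≤ d := by exact_mod_cast h8
      linarith
    have h3 : (2:ℝ) ^ (2:ℝ) = 4 := by norm_num
    rw [h3] at h2
    have h4 := mul_le_mul_of_nonneg_left h2 (by linarith : 0 ≤ C1)
    linarith
  have hTA : 8 ≤ d → T4 (src e) d ⊆ D.edges := fun h8 =>
    (T4_sub h8).trans (blk_edges (by omega))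
  have hexA : ∀ F, F ⊆ D.edges → 8 ≤ d → Exc D F e r → Ar (src e) d F := fun F hF h8 h =>
    exc_arms hD hF h8 (by omega) (Exc_mono (by omega) h)
  -- the arm near the boundary
  have hBo : d + 4 ≤ min (r - 1) t → Q ε D.edges (Sw (B2 D (src e) (d + 3) (min (r - 1) t))) ≤
      2 * (CS * (((d + 3 + 1 : ℕ) : ℝ) / (min (r - 1) t : ℕ)) ^ (1 / 3 : ℝ)) := by
    intro hR
    exact B2_prob hB h0 h1 hv (by omega)
      (hsm _ (by omega)) (by omega) (by omega)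
  have hexB : ∀ F, F ⊆ D.edges → d + 4 ≤ min (r - 1) t → Exc D F e r →
      B2 D (src e) (d + 3) (min (r - 1) t) F := fun F hF hR h =>
    (Bo_local D _ _ _ F hF).1 (exc_out hD hF he hw (by omega) (by omega) h)
  apply scale_le h0 (Q_e_le h0 h1 he _)
  intro hpos
  apply num2 hC1 hCS hr (by omega) (by omega)
  · rw [div_le_one hpos]
    exact Q_e_le h0 h1 he _
  · intro h8
    rw [div_le_iff₀ hpos]
    have g2 : Q ε D.edges (fun U B => e ∈ U ∧ Sw (fun F => Exc D F e r) U B) ≤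
        Q ε D.edges (fun U B => e ∈ U ∧ Sw (Ar (src e) d) U B) :=
      Q_mono h0 h1 fun U B hU hB h => ⟨h.1, Sw_mono hU hB (fun F hF h => hexA F hF h8 h) h.2⟩
    rw [Q_e he (hTA h8) (heA d) (Ar_lc _ _)] at g2
    have g3 := mul_le_mul_of_nonneg_left (hAr h8) h0
    linarith
  · intro hR
    rw [div_le_iff₀ hpos]
    have g2 : Q ε D.edges (fun U B => e ∈ U ∧ Sw (fun F => Exc D F e r) U B) ≤
        Q ε D.edges (fun U B => e ∈ U ∧ Sw (B2 D (src e) (d + 3) (min (r - 1) t)) U B) :=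
      Q_mono h0 h1 fun U B hU hB h => ⟨h.1, Sw_mono hU hB (fun F hF h => hexB F hF hR h) h.2⟩
    rw [Q_e he Finset.sdiff_subset heB (B2_lc _ _ _ _)] at g2
    have g3 := mul_le_mul_of_nonneg_left (hBo hR) h0
    linarith
  · intro h8 hR
    rw [div_le_iff₀ hpos]
    have g2 : Q ε D.edges (fun U B => e ∈ U ∧ Sw (fun F => Exc D F e r) U B) ≤
        Q ε D.edges (fun U B => e ∈ U ∧ (Sw (Ar (src e) d) U B ∧
          Sw (B2 D (src e) (d + 3) (min (r - 1) t)) U B)) :=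
      Q_mono h0 h1 fun U B hU hB h => ⟨h.1, Sw_mono hU hB (fun F hF h => hexA F hF h8 h) h.2,
        Sw_mono hU hB (fun F hF h => hexB F hF hR h) h.2⟩
    have hdj : Disjoint (T4 (src e) d) (D.edges \ blk (src e) (d + 3)) :=
      Finset.disjoint_of_subset_left ((T4_sub h8).trans (blk_mono (by omega : d ≤ d + 3)))
        Finset.disjoint_sdiff
    rw [Q_e (A := fun U B => Sw (Ar (src e) d) U B ∧
        Sw (B2 D (src e) (d + 3) (min (r - 1) t)) U B) he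
      (Finset.union_subset (hTA h8) Finset.sdiff_subset) (by
        rw [Finset.mem_union]
        rintro (h | h)
        · exact heA _ h
        · exact heB h) (Lc_and (Ar_lc _ _) (B2_lc _ _ _ _)),
      Q_and (hTA h8) Finset.sdiff_subset hdj (Ar_lc _ _) (B2_lc _ _ _ _)] at g2
    have g3 := mul_le_mul (hAr h8) (hBo hR) (Q_nonneg h0 h1 _ _) (by positivity)
    have g4 := mul_le_mul_of_nonneg_left g3 h0
    exact (g2.trans g4).trans (le_of_eq (mul_comm _ _))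


theorem per_sc {c : ℝ} (h4 : A4c c) (h2 : A2c c) (h1 : A1c c) : ∃ C : ℝ, 1 ≤ C ∧
    ∀ (D : Dm), D.Ok → ∀ (ε : ℝ) (N s : ℕ), 0 ≤ ε → ε ≤ 1 → ε * (N : ℝ) ^ (3/4 : ℝ) ≤ c →
    D.r - D.l ≤ N → D.h ≤ N → 1 ≤ s → ∀ e ∈ D.edges, e ∉ D.wir →
    Q ε D.edges (fun U B => e ∈ U ∧ Sw (fun F => Exc D F e s) U B) ≤
    ε * (C * ((s : ℝ) ^ (-1 : ℝ) * ((D.bd (src e) : ℝ) + 1) ^ (-(1/4) : ℝ) +
      (s : ℝ) ^ (-(1/3) : ℝ) * pk (11/12) s (D.bd (src e)) +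
        ((D.bd (src e) : ℝ) + 1) ^ (-(11/12) : ℝ) *
        ((sec D (src e) : ℝ) + 1) ^ (-(1/3) : ℝ))) := by
  obtain ⟨C1, hC1, hA⟩ := e1Uc h4 h2
  obtain ⟨C2, hC2, hB⟩ := e2Uc h4 h1
  refine ⟨C1 + C2, by linarith, ?_⟩
  intro D hD ε N s h0 h1 hN hw1 hw2 hs e he hw
  have hN1 := hN
  have hN2 := hN
  have hv := src_in he
  obtain ⟨hb0, hbs⟩ := bd_sec hv
  have hv' := hv
  unfold inR at hv'
  have hsN : sec D (src e) ≤ N := by
    have : sec D (src e) ≤ max ((src e).1 - D.l) (D.r - (src e).1) := by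
      unfold sec
      exact (min_le_left _ _).trans (min_le_left _ _)
    refine this.trans (max_le ?_ ?_) <;> omega
  have hbN : D.bd (src e) ≤ N := hbs.trans hsN
  have hs0 : (0:ℝ) < s := by exact_mod_cast hs
  obtain ⟨d, hdd⟩ : ∃ d : ℕ, (d : ℤ) = D.bd (src e) := ⟨(D.bd (src e)).toNat, by omega⟩
  obtain ⟨t, htt⟩ : ∃ t : ℕ, (t : ℤ) = sec D (src e) := ⟨(sec D (src e)).toNat, by omega⟩
  have a1 := pk_nonneg (11/12) s (D.bd (src e))
  rcases le_total (s : ℤ) (D.bd (src e)) with h | h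
  · refine (hA D hD ε e s N h0 h1 he hN1 hbN hs h).trans ?_
    apply mul_le_mul_of_nonneg_left _ h0
    rw [← hdd, ← htt, Int.cast_natCast, Int.cast_natCast]
    rw [← hdd] at a1
    set y := ((d : ℝ) + 1) ^ (-(1/4) : ℝ) with hy
    set x := ((d : ℝ) + 1) ^ (-(11/12) : ℝ) with hx
    set z := ((t : ℝ) + 1) ^ (-(1/3) : ℝ) with hz
    have hy0 : 0 < y := by positivity
    have hx0 : 0 < x := by positivity
    have hz0 : 0 < z := by positivity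
    have b1 : 0 ≤ (s : ℝ) ^ (-1 : ℝ) * y := by positivity
    have b2 : 0 ≤ (s : ℝ) ^ (-(1/3) : ℝ) * pk (11/12) s (d:ℤ) := by positivity
    have b3 : 0 ≤ x * z := by positivity
    nlinarith
  · refine (hB D hD ε e s N h0 h1 he hw hN2 hsN hs h).trans ?_
    apply mul_le_mul_of_nonneg_left _ h0
    have hmm : min (s : ℤ) (sec D (src e)) = ((min s t : ℕ) : ℤ) := by
      rw [← htt]
      push_cast
      rfl
    have hpk : ((d : ℝ) + 1) ^ (-(11/12) : ℝ) ≤ pk (11/12) s (D.bd (src e)) := by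
      unfold pk
      rw [if_pos h]
      have hv2 : src e ∈ Finset.Icc D.l D.r ×ˢ Finset.Icc 0 D.h := by
        rw [Finset.mem_product, Finset.mem_Icc, Finset.mem_Icc]
        exact hv
      have := sumb_ph (b := 11/12) (by norm_num) hv2
      rw [← hdd, Int.cast_natCast] at this
      rw [← hdd]
      exact this
    rw [← hdd] at hpk a1 ⊢
    rw [hmm, ← htt, Int.cast_natCast, Int.cast_natCast, Int.cast_natCast]
    have hmin : (((min s t : ℕ) : ℝ) + 1) ^ (-(1/3) : ℝ) ≤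
        (s : ℝ) ^ (-(1/3) : ℝ) + ((t : ℝ) + 1) ^ (-(1/3) : ℝ) := by
      have q1 : 0 ≤ (s : ℝ) ^ (-(1/3) : ℝ) := by positivity
      have q2 : 0 ≤ ((t : ℝ) + 1) ^ (-(1/3) : ℝ) := by positivity
      rcases le_total s t with h' | h'
      · rw [min_eq_left h']
        have : ((s:ℝ) + 1) ^ (-(1/3) : ℝ) ≤ (s:ℝ) ^ (-(1/3) : ℝ) :=
          Real.rpow_le_rpow_of_nonpos hs0 (by linarith) (by norm_num)
        linarith
      · rw [min_eq_right h']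
        linarith
    set y := ((d : ℝ) + 1) ^ (-(1/4) : ℝ) with hy
    set x := ((d : ℝ) + 1) ^ (-(11/12) : ℝ) with hx
    set z := ((t : ℝ) + 1) ^ (-(1/3) : ℝ) with hz
    have hy0 : 0 < y := by positivity
    have hx0 : 0 < x := by positivity
    have hz0 : 0 < z := by positivity
    have hsp : 0 < (s : ℝ) ^ (-(1/3) : ℝ) := by positivity
    have b1 : 0 ≤ (s : ℝ) ^ (-1 : ℝ) * y := by positivity
    have b2 : 0 ≤ (s : ℝ) ^ (-(1/3) : ℝ) * pk (11/12) s (d:ℤ) := by positivity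
    have b3 : 0 ≤ x * z := by positivity
    have b4 := mul_le_mul_of_nonneg_left hmin hx0.le
    have b5 := mul_le_mul_of_nonneg_left hpk hsp.le
    have b6 : x * (((min s t : ℕ) : ℝ) + 1) ^ (-(1/3) : ℝ) ≤
        (s : ℝ) ^ (-(1/3) : ℝ) * pk (11/12) s (d:ℤ) + x * z := by linarith
    have b7 := mul_le_mul_of_nonneg_left b6 (by linarith : 0 ≤ C2)
    nlinarith

/-- the sum over all edges, one size -/
theorem sum_sc {c : ℝ} (h4 : A4c c) (h2 : A2c c) (h1 : A1c c) {κ : ℝ} (hκ : 0 < κ) :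
    ∃ C : ℝ, 0 < C ∧ ∀ (D : Dm) (n : ℝ), D.Shape κ n → 1 ≤ n →
    ∀ (ε : ℝ) (N s : ℕ), 0 ≤ ε → ε ≤ 1 → ε * (N : ℝ) ^ (3/4 : ℝ) ≤ c → n ≤ N → (N : ℝ) ≤ 2 * n →
    1 ≤ s → s ≤ N →
    ∑ e ∈ D.edges, ind (e ∉ D.wir) *
      Q ε D.edges (fun U B => e ∈ U ∧ Sw (fun F => Exc D F e s) U B) ≤
    C * (ε * (n ^ (7/4 : ℝ) / s)) := by
  obtain ⟨C1, hC1, hP⟩ := per_sc h4 h2 h1
  obtain ⟨CS, hCS, hS⟩ := Pool.Agent.Zk96.NS.t_SUM κ hκ
  refine ⟨2 * C1 * (8 * (1 + 1 / (1 - 1/4)) + 2 * (8 * (1 + 1 / (1 - 11/12))) + 2 * CS),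
    by positivity, ?_⟩
  intro D n hSh hn ε N s h0 h1' hN hnN hN2 hs hsN
  have hD := hSh.ok
  have hw1 : D.r - D.l ≤ N := by
    have := hSh.w_le.trans hnN
    exact_mod_cast this
  have hw2 : D.h ≤ N := by
    have := hSh.h_le.trans hnN
    exact_mod_cast this
  have hNR : (1:ℝ) ≤ N := hn.trans hnN
  have hn0 : 0 < n := by linarith
  have hs0 : (0:ℝ) < s := by exact_mod_cast hs
  have hs1 : (1:ℝ) ≤ s := by exact_mod_cast hs
  have hsn : (s:ℝ) ≤ 2 * n := by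
    have : (s:ℝ) ≤ N := by exact_mod_cast hsN
    linarith
  set G : Vtx → ℝ := fun v => |(s : ℝ) ^ (-1 : ℝ) * ((D.bd v : ℝ) + 1) ^ (-(1/4) : ℝ) +
      (s : ℝ) ^ (-(1/3) : ℝ) * pk (11/12) s (D.bd v) +
      ((D.bd v : ℝ) + 1) ^ (-(11/12) : ℝ) * ((sec D v : ℝ) + 1) ^ (-(1/3) : ℝ)| with hG
  have g1 : ∀ e ∈ D.edges, ind (e ∉ D.wir) *
      Q ε D.edges (fun U B => e ∈ U ∧ Sw (fun F => Exc D F e s) U B) ≤
      ε * C1 * G (src e) := by
    intro e he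
    have hGn : 0 ≤ G (src e) := abs_nonneg _
    by_cases hw : e ∈ D.wir
    · rw [ind_not_of (by rw [not_not]; exact hw), zero_mul]
      positivity
    · rw [ind_of hw, one_mul]
      refine (hP D hD ε N s h0 h1' hN hw1 hw2 hs e he hw).trans ?_
      rw [mul_assoc]
      apply mul_le_mul_of_nonneg_left _ h0
      exact mul_le_mul_of_nonneg_left (le_abs_self _) (by linarith)
  refine (Finset.sum_le_sum g1).trans ?_
  rw [← Finset.mul_sum]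
  have g2 := sum_edges D G (fun v => abs_nonneg _)
  have g3 : ∑ v ∈ Finset.Icc D.l D.r ×ˢ Finset.Icc 0 D.h, G v =
      (s : ℝ) ^ (-1 : ℝ) * ∑ v ∈ Finset.Icc D.l D.r ×ˢ Finset.Icc 0 D.h,
        ((D.bd v : ℝ) + 1) ^ (-(1/4) : ℝ) +
      (s : ℝ) ^ (-(1/3) : ℝ) * ∑ v ∈ Finset.Icc D.l D.r ×ˢ Finset.Icc 0 D.h,
        pk (11/12) s (D.bd v) +
      ∑ v ∈ Finset.Icc D.l D.r ×ˢ Finset.Icc 0 D.h,
        (((D.bd v : ℝ) + 1) ^ (-(11/12) : ℝ) * ((sec D v : ℝ) + 1) ^ (-(1/3) : ℝ)) := by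
    rw [Finset.mul_sum, Finset.mul_sum, ← Finset.sum_add_distrib, ← Finset.sum_add_distrib]
    apply Finset.sum_congr rfl
    intro v hv
    have hb0 := sumb_bd0 hv
    have hv' : inR D.l D.r 0 D.h v := by
      rw [Finset.mem_product, Finset.mem_Icc, Finset.mem_Icc] at hv
      exact hv
    have hs0 : 0 ≤ sec D v := (bd_sec hv').1.trans (bd_sec hv').2
    have hb0' : (0:ℝ) ≤ D.bd v := by exact_mod_cast hb0
    have hs0' : (0:ℝ) ≤ sec D v := by exact_mod_cast hs0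
    have hpk := pk_nonneg (11/12) s (D.bd v)
    rw [hG]
    apply abs_of_nonneg
    positivity
  have g4 : ∑ v ∈ Finset.Icc D.l D.r ×ˢ Finset.Icc 0 D.h, ((D.bd v : ℝ) + 1) ^ (-(1/4) : ℝ) ≤
      8 * (1 + 1 / (1 - 1/4)) * n ^ (7/4 : ℝ) := by
    have a1 := suma_bd (C := 1) (b := 1/4) zero_le_one (by norm_num) (by norm_num) D n hD hn
      hSh.w_le hSh.h_le
    have a2 : (2:ℝ) - 1/4 = 7/4 := by norm_num
    rw [a2] at a1
    refine (Finset.sum_le_sum fun v hv => ?_).trans a1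
    exact sumb_ph (by norm_num) hv
  have g5 := hS D n hSh hn
  have g6 := pk_bd (b := 11/12) (by norm_num) (by norm_num) hs D n hD hn hSh.w_le hSh.h_le
  have hsi : (s:ℝ) ^ (-1 : ℝ) = 1 / s := by rw [Real.rpow_neg_one, one_div]
  -- powers
  have e1 : (s : ℝ) ^ (-(1/3) : ℝ) * (n * (s : ℝ) ^ (1 - 11/12 : ℝ)) ≤
      2 * (n ^ (7/4 : ℝ) / s) := by
    have a1 : (s : ℝ) ^ (-(1/3) : ℝ) * (n * (s : ℝ) ^ (1 - 11/12 : ℝ)) =
        n * ((s:ℝ) ^ (3/4 : ℝ) / s) := by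
      have b1 : (s:ℝ) ^ (3/4 : ℝ) / s = (s : ℝ) ^ (-(1/3) : ℝ) * (s : ℝ) ^ (1 - 11/12 : ℝ) := by
        rw [← Real.rpow_add hs0, div_eq_mul_inv, ← Real.rpow_neg_one, ← Real.rpow_add hs0]
        norm_num
      rw [b1]
      ring
    have a2 : (s:ℝ) ^ (3/4 : ℝ) ≤ 2 * n ^ (3/4 : ℝ) := by
      calc (s:ℝ) ^ (3/4 : ℝ) ≤ (2 * n) ^ (3/4 : ℝ) :=
            Real.rpow_le_rpow hs0.le hsn (by norm_num)
        _ = 2 ^ (3/4 : ℝ) * n ^ (3/4 : ℝ) := Real.mul_rpow (by norm_num) hn0.le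
        _ ≤ 2 * n ^ (3/4 : ℝ) := by
            apply mul_le_mul_of_nonneg_right _ (by positivity)
            calc (2:ℝ) ^ (3/4 : ℝ) ≤ 2 ^ (1:ℝ) :=
                  Real.rpow_le_rpow_of_exponent_le (by norm_num) (by norm_num)
              _ = 2 := Real.rpow_one 2
    have a3 : n ^ (7/4 : ℝ) = n * n ^ (3/4 : ℝ) := by
      nth_rewrite 2 [← Real.rpow_one n]
      rw [← Real.rpow_add hn0]
      norm_num
    rw [a1, a3]
    have a4 : n * ((s:ℝ) ^ (3/4 : ℝ) / s) ≤ n * ((2 * n ^ (3/4 : ℝ)) / s) := by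
      apply mul_le_mul_of_nonneg_left _ hn0.le
      exact div_le_div_of_nonneg_right a2 hs0.le
    refine a4.trans (le_of_eq ?_)
    ring
  have e2 : n ^ (3/4 : ℝ) ≤ 2 * (n ^ (7/4 : ℝ) / s) := by
    have a3 : n ^ (7/4 : ℝ) = n * n ^ (3/4 : ℝ) := by
      nth_rewrite 2 [← Real.rpow_one n]
      rw [← Real.rpow_add hn0]
      norm_num
    rw [a3, mul_div_assoc', le_div_iff₀ hs0]
    have : 0 ≤ n ^ (3/4 : ℝ) := by positivity
    nlinarith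
  have hX0 : 0 ≤ n ^ (7/4 : ℝ) / s := by positivity
  have hsp : 0 < (s : ℝ) ^ (-(1/3) : ℝ) := by positivity
  have f1 : (s : ℝ) ^ (-1 : ℝ) * ∑ v ∈ Finset.Icc D.l D.r ×ˢ Finset.Icc 0 D.h,
        ((D.bd v : ℝ) + 1) ^ (-(1/4) : ℝ) ≤
      8 * (1 + 1 / (1 - 1/4)) * (n ^ (7/4 : ℝ) / s) := by
    rw [hsi]
    refine (mul_le_mul_of_nonneg_left g4 (by positivity)).trans (le_of_eq ?_)
    ring
  have f2 : (s : ℝ) ^ (-(1/3) : ℝ) * ∑ v ∈ Finset.Icc D.l D.r ×ˢ Finset.Icc 0 D.h,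
        pk (11/12) s (D.bd v) ≤ 8 * (1 + 1 / (1 - 11/12)) * (2 * (n ^ (7/4 : ℝ) / s)) := by
    refine (mul_le_mul_of_nonneg_left g6 hsp.le).trans ?_
    have a1 := mul_le_mul_of_nonneg_left e1 (by norm_num : (0:ℝ) ≤ 8 * (1 + 1 / (1 - 11/12)))
    refine le_trans (le_of_eq ?_) a1
    ring
  have f3 : ∑ v ∈ Finset.Icc D.l D.r ×ˢ Finset.Icc 0 D.h,
        (((D.bd v : ℝ) + 1) ^ (-(11/12) : ℝ) * ((sec D v : ℝ) + 1) ^ (-(1/3) : ℝ)) ≤
      CS * (2 * (n ^ (7/4 : ℝ) / s)) :=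
    g5.trans (mul_le_mul_of_nonneg_left e2 hCS.le)
  have g8 : ε * C1 * ∑ e ∈ D.edges, G (src e) ≤ ε * C1 * (2 *
      ((8 * (1 + 1 / (1 - 1/4)) + 2 * (8 * (1 + 1 / (1 - 11/12))) + 2 * CS) *
        (n ^ (7/4 : ℝ) / s))) := by
    apply mul_le_mul_of_nonneg_left _ (by positivity)
    rw [g3] at g2
    linarith
  refine g8.trans (le_of_eq ?_)
  ring

/-- the sum over all edges of the probability that the edge is examined -/
theorem sum_mc {c : ℝ} (h2 : A2c c) {κ : ℝ} :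
    ∃ C : ℝ, 0 < C ∧ ∀ (D : Dm) (n : ℝ), D.Shape κ n → 1 ≤ n →
    ∀ (ε : ℝ) (N : ℕ), 0 ≤ ε → ε ≤ 1 → ε * (N : ℝ) ^ (3/4 : ℝ) ≤ c → n ≤ N →
    ∑ e ∈ D.edges, Q ε D.edges (fun U B => e ∈ U ∧ Sw (fun F => Exm D F e) U B) ≤
    C * (ε * n ^ (7/4 : ℝ)) := by
  obtain ⟨C1, hC1, hP⟩ := emUc h2
  refine ⟨2 * C1 * (8 * (1 + 1 / (1 - 1/4))), by positivity, ?_⟩
  intro D n hSh hn ε N h0 h1' hN hnN
  have hD := hSh.ok
  set G : Vtx → ℝ := fun v => |((D.bd v : ℝ) + 1) ^ (-(1/4) : ℝ)| with hG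
  have g1 : ∀ e ∈ D.edges,
      Q ε D.edges (fun U B => e ∈ U ∧ Sw (fun F => Exm D F e) U B) ≤ ε * C1 * G (src e) := by
    intro e he
    have hv := src_in he
    have hb : D.bd (src e) ≤ N := by
      have a1 : D.bd (src e) ≤ D.h := by
        unfold inR at hv
        unfold Dm.bd
        omega
      have a2 : D.h ≤ (N:ℤ) := by
        have := hSh.h_le.trans hnN
        exact_mod_cast this
      omega
    refine (hP D hD ε e N h0 h1' he hN hb).trans ?_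
    rw [mul_assoc]
    apply mul_le_mul_of_nonneg_left _ h0
    exact mul_le_mul_of_nonneg_left (le_abs_self _) (by linarith)
  refine (Finset.sum_le_sum g1).trans ?_
  rw [← Finset.mul_sum]
  have g2 := sum_edges D G (fun v => abs_nonneg _)
  have g4 : ∑ v ∈ Finset.Icc D.l D.r ×ˢ Finset.Icc 0 D.h, G v ≤
      8 * (1 + 1 / (1 - 1/4)) * n ^ (7/4 : ℝ) := by
    have a1 := suma_bd (C := 1) (b := 1/4) zero_le_one (by norm_num) (by norm_num) D n hD hn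
      hSh.w_le hSh.h_le
    have a2 : (2:ℝ) - 1/4 = 7/4 := by norm_num
    rw [a2] at a1
    refine (Finset.sum_le_sum fun v hv => ?_).trans a1
    have hb0 := sumb_bd0 hv
    have hb0' : (0:ℝ) ≤ D.bd v := by exact_mod_cast hb0
    have e : G v = ((D.bd v : ℝ) + 1) ^ (-(1/4) : ℝ) := abs_of_nonneg (by positivity)
    rw [e]
    exact sumb_ph (by norm_num) hv
  have g8 : ε * C1 * ∑ e ∈ D.edges, G (src e) ≤
      ε * C1 * (2 * (8 * (1 + 1 / (1 - 1/4)) * n ^ (7/4 : ℝ))) := by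
    apply mul_le_mul_of_nonneg_left _ (by positivity)
    linarith
  refine g8.trans (le_of_eq ?_)
  ring


end Pool.Agent.Zk72.NF
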